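import Mathlib

set_option autoImplicit false

namespace Pool.Agent.H60.Slab

/-- The slab of the cube `[-1,1]^n` of half-width `t` orthogonal to `a`. -/
def slab (n : ℕ) (a : Fin n → ℝ) (t : ℝ) : Set (Fin n → ℝ) :=
  {x | (∀ i, |x i| ≤ 1) ∧ |∑ i, x i * a i| ≤ t}

/-- The standard vector `f_m = (1, ..., 1, 0, ..., 0) / sqrt m` with `m` nonzero entries. -/
noncomputable def stdVec (n m : ℕ) : Fin n → ℝ :=
  fun i => if (i : ℕ) < m then 1 / Real.sqrt (m : ℝ) else 0

end Pool.Agent.H60.Slab
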