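import Pool.Agent.H60.Slab.Main
import Pool.Agent.H60.Slab.Defs

set_option autoImplicit false

open MeasureTheory Set

namespace Pool.Agent.H60.Slab

theorem cubeM_univ (n : ℕ) : (cubeM n).real univ = 2 ^ n := by
  simp only [cubeM, Measure.real, Measure.pi_univ, Measure.restrict_apply_univ,
    Real.volume_Icc, Finset.prod_const, Finset.card_univ, Fintype.card_fin,
    ENNReal.toReal_pow]
  norm_num

theorem slab_le_iff {n : ℕ} (a b : Fin n → ℝ) (t : ℝ) :
    volume (slab n a t) ≤ volume (slab n b t) ↔ FV a t 0 ≤ FV b t 0 :=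
  volume_slab_le_iff a b t

theorem FV_f1 (n : ℕ) {t : ℝ} (ht : 0 ≤ t) :
    FV (stdVec (n + 1) 1) t 0 = 2 ^ (n + 1) * min 1 t := by
  have h0 : stdVec (n + 1) 1 0 = 1 := by simp [stdVec]
  have h1 : ∀ j : Fin n, stdVec (n + 1) 1 ((0 : Fin (n + 1)).succAbove j) = 0 := by
    intro j; simp [stdVec]
  rw [FV_zero_eq _ 0 (by rw [h0]; norm_num) ht, h0]
  have h2 : ∀ x : Fin n → ℝ, dot x (fun j => stdVec (n + 1) 1 ((0 : Fin (n + 1)).succAbove j)) = 0 := by
    intro x; unfold dot; apply Finset.sum_eq_zero; intro j _; show x j * stdVec (n + 1) 1 _ = 0; rw [h1 j, mul_zero]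
  simp only [h2, add_zero]
  rw [integral_const, cubeM_univ, clamp_of_nonneg ht zero_le_one]
  simp only [smul_eq_mul]
  ring

theorem int_clamp {t c : ℝ} (ht : 0 ≤ t) (htc : t ≤ c) :
    ∫ s in (0 : ℝ)..c, clamp t s = t * c - t ^ 2 / 2 := by
  rw [← intervalIntegral.integral_add_adjacent_intervals
    ((clamp_continuous t).intervalIntegrable 0 t) ((clamp_continuous t).intervalIntegrable t c)]
  have e1 : ∫ s in (0 : ℝ)..t, clamp t s = ∫ s in (0 : ℝ)..t, s := by
    apply intervalIntegral.integral_congr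
    intro s hs
    rw [uIcc_of_le ht] at hs
    simp only
    rw [clamp_of_nonneg ht hs.1, min_eq_left hs.2]
  have e2 : ∫ s in t..c, clamp t s = ∫ s in t..c, t := by
    apply intervalIntegral.integral_congr
    intro s hs
    rw [uIcc_of_le htc] at hs
    simp only
    rw [clamp_of_nonneg ht (le_trans ht hs.1), min_eq_right hs.1]
  rw [e1, e2, integral_id, intervalIntegral.integral_const, smul_eq_mul]
  ring

theorem FV_f2 (n : ℕ) {t : ℝ} (ht : 0 ≤ t) (ht2 : t ≤ Real.sqrt 2) :
    FV (stdVec (n + 2) 2) t 0 = 2 ^ (n + 2) * vv t := by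
  have hs := sqrt2_sq
  have hs0 : 0 < Real.sqrt 2 := Real.sqrt_pos.2 (by norm_num)
  have h0 : stdVec (n + 2) 2 0 = 1 / Real.sqrt 2 := by simp [stdVec]
  have h1 : stdVec (n + 2) 2 ((0 : Fin (n + 2)).succAbove 0) = 1 / Real.sqrt 2 := by
    simp [stdVec]
  have h2 : ∀ j : Fin n, stdVec (n + 2) 2
      ((0 : Fin (n + 2)).succAbove ((0 : Fin (n + 1)).succAbove j)) = 0 := by
    intro j; simp [stdVec]
  rw [FV_zero_eq _ 0 (by rw [h0]; positivity) ht, integral_dot_succ 0 (clamp_continuous t), h0, h1]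
  have h3 : ∀ x : Fin n → ℝ, dot x (fun j => stdVec (n + 2) 2
      ((0 : Fin (n + 2)).succAbove ((0 : Fin (n + 1)).succAbove j))) = 0 := by
    intro x; unfold dot; apply Finset.sum_eq_zero; intro j _; show x j * stdVec (n + 2) 2 _ = 0; rw [h2 j, mul_zero]
  simp only [h3]
  rw [integral_const, cubeM_univ, avg_eq_interval _ (by positivity)]
  have e1 : 1 / Real.sqrt 2 + 0 - 1 / Real.sqrt 2 = 0 := by ring
  have e2 : 1 / Real.sqrt 2 + 0 + 1 / Real.sqrt 2 = Real.sqrt 2 := by
    field_simp; linarith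
  rw [e1, e2, int_clamp ht ht2]
  unfold vv
  simp only [smul_eq_mul, one_div, inv_inv]
  have : 2 * Real.sqrt 2 * (2 ^ n * (Real.sqrt 2 * (t * Real.sqrt 2 - t ^ 2 / 2))) =
    2 * (Real.sqrt 2) ^ 2 * 2 ^ n * (t * Real.sqrt 2 - t ^ 2 / 2) := by ring
  rw [this, hs]
  ring

theorem std_unit {n m : ℕ} (hm : 1 ≤ m) (hmn : m ≤ n) : ∑ i, stdVec n m i ^ 2 = 1 := by
  unfold stdVec
  have hm0 : (0 : ℝ) < m := by exact_mod_cast hm
  have e : ∀ i : Fin n, (if (i : ℕ) < m then 1 / Real.sqrt (m : ℝ) else 0) ^ 2 =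
      if (i : ℕ) < m then 1 / (m : ℝ) else 0 := by
    intro i
    split_ifs
    · rw [div_pow, Real.sq_sqrt hm0.le, one_pow]
    · simp
  simp only [e]
  rw [← Finset.sum_filter, Finset.sum_const]
  have hc : (Finset.univ.filter (fun i : Fin n => (i : ℕ) < m)).card = m := by
    rw [Fin.card_filter_val_lt]
    exact min_eq_right hmn
  rw [hc, nsmul_eq_mul]
  field_simp

/-- the slab orthogonal to the main diagonal is not the whole cube. -/
theorem FV_fn_lt {n : ℕ} (hn : 1 ≤ n) {t : ℝ} (ht0 : 0 ≤ t) (ht : t < Real.sqrt n) :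
    FV (stdVec n n) t 0 < 2 ^ n := by
  have hn0 : (0 : ℝ) < n := by exact_mod_cast hn
  have hsn : 0 < Real.sqrt n := Real.sqrt_pos.2 hn0
  have hval : ∀ x : Fin n → ℝ, dot x (stdVec n n) = (∑ i, x i) / Real.sqrt n := by
    intro x
    simp only [dot, stdVec, Fin.is_lt, if_true]
    rw [Finset.sum_div]
    congr 1
    ext i
    ring
  -- an open piece outside of the slab
  set U : Set (Fin n → ℝ) := {x | t < dot x (stdVec n n)} ∩ Set.pi univ (fun _ => Ioo (-1 : ℝ) 1)
    with hU
  have hUo : IsOpen U := by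
    apply IsOpen.inter
    · exact isOpen_lt continuous_const (continuous_dot _)
    · exact isOpen_set_pi finite_univ (fun i _ => isOpen_Ioo)
  have hne : U.Nonempty := by
    refine ⟨fun _ => (t / Real.sqrt n + 1) / 2, ?_, ?_⟩
    · have h1 : t / Real.sqrt n < 1 := (div_lt_one hsn).2 ht
      simp only [mem_setOf_eq, hval, Finset.sum_const, Finset.card_univ, Fintype.card_fin,
        nsmul_eq_mul]
      rw [lt_div_iff₀ hsn]
      have h2 : (n : ℝ) = Real.sqrt n ^ 2 := (Real.sq_sqrt hn0.le).symm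
      have h3 : t * Real.sqrt n = (t / Real.sqrt n) * n := by
        nth_rewrite 3 [h2]
        field_simp
      rw [h3]
      nlinarith
    · intro i _
      have h1 : t / Real.sqrt n < 1 := (div_lt_one hsn).2 ht
      have h2 : 0 ≤ t / Real.sqrt n := by positivity
      constructor <;> linarith
  have hpos : 0 < (cubeM n) U := by
    rw [cubeM_eq, Measure.restrict_apply hUo.measurableSet]
    have : U ∩ Icc (fun _ => (-1 : ℝ)) (fun _ => 1) = U := by
      apply inter_eq_left.2
      intro x hx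
      exact ⟨fun i => (hx.2 i (mem_univ i)).1.le, fun i => (hx.2 i (mem_univ i)).2.le⟩
    rw [this]
    exact hUo.measure_pos volume hne
  have hposr : 0 < (cubeM n).real U := by
    rw [Measure.real]
    exact ENNReal.toReal_pos hpos.ne' (measure_ne_top _ _)
  have hdisj : Disjoint {x : Fin n → ℝ | |0 + dot x (stdVec n n)| ≤ t} U := by
    rw [Set.disjoint_left]
    intro x hx hxU
    have h1 : t < dot x (stdVec n n) := hxU.1
    simp only [mem_setOf_eq, zero_add] at hx
    have := le_abs_self (dot x (stdVec n n))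
    linarith
  have hadd := measureReal_union (μ := cubeM n) hdisj hUo.measurableSet
  have hle : (cubeM n).real ({x : Fin n → ℝ | |0 + dot x (stdVec n n)| ≤ t} ∪ U) ≤
      (cubeM n).real univ := measureReal_mono (subset_univ _)
  rw [cubeM_univ] at hle
  unfold FV
  linarith

end Pool.Agent.H60.Slab
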