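import Pool.Agent.H60.Slab.Sinc

set_option autoImplicit false

open Set

namespace Pool.Agent.H60.Slab

/-- characteristic function of the sum of uniforms. -/
noncomputable def phi {n : ℕ} (a : Fin n → ℝ) (ξ : ℝ) : ℝ := ∏ i, Real.sinc (ξ * a i)

theorem prod_one_sub_ge {ι : Type*} (s : Finset ι) (d : ι → ℝ) (h0 : ∀ i ∈ s, 0 ≤ d i)
    (h1 : ∀ i ∈ s, d i ≤ 1) : 1 - ∑ i ∈ s, d i ≤ ∏ i ∈ s, (1 - d i) := by
  classical
  induction s using Finset.induction_on with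
  | empty => simp
  | insert i s hi ih =>
    rw [Finset.sum_insert hi, Finset.prod_insert hi]
    have h2 := ih (fun j hj => h0 j (Finset.mem_insert_of_mem hj))
      (fun j hj => h1 j (Finset.mem_insert_of_mem hj))
    have h3 := h0 i (Finset.mem_insert_self i s)
    have h4 := h1 i (Finset.mem_insert_self i s)
    have h5 : ∏ j ∈ s, (1 - d j) ≤ 1 := by
      apply Finset.prod_le_one
      · intro j hj; linarith [h1 j (Finset.mem_insert_of_mem hj)]
      · intro j hj; linarith [h0 j (Finset.mem_insert_of_mem hj)]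
    nlinarith

theorem prod_one_add_ge {ι : Type*} (s : Finset ι) (d : ι → ℝ) (h0 : ∀ i ∈ s, 0 ≤ d i) :
    1 + ∑ i ∈ s, d i ≤ ∏ i ∈ s, (1 + d i) := by
  classical
  induction s using Finset.induction_on with
  | empty => simp
  | insert i s hi ih =>
    rw [Finset.sum_insert hi, Finset.prod_insert hi]
    have h2 := ih (fun j hj => h0 j (Finset.mem_insert_of_mem hj))
    have h3 := h0 i (Finset.mem_insert_self i s)
    have h5 : 0 ≤ ∑ j ∈ s, d j := Finset.sum_nonneg fun j hj => h0 j (Finset.mem_insert_of_mem hj)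
    nlinarith

theorem prod_exp_sq {n : ℕ} (a : Fin n → ℝ) (hsum : ∑ j, a j ^ 2 = 1) (ξ c : ℝ) :
    ∏ i, Real.exp (-((ξ * a i) ^ 2 * c)) = Real.exp (-(ξ ^ 2 * c)) := by
  rw [← Real.exp_sum]
  congr 1
  have : ∀ i, -((ξ * a i) ^ 2 * c) = (-(ξ ^ 2 * c)) * a i ^ 2 := by intro i; ring
  simp only [this]
  rw [← Finset.mul_sum, hsum, mul_one]

theorem phi_le_exp {n : ℕ} (a : Fin n → ℝ) (hsum : ∑ j, a j ^ 2 = 1) (ha : ∀ i, |a i| ≤ 1 / 2)
    {ξ : ℝ} (h0 : 0 ≤ ξ) (h1 : ξ ≤ 2 * Real.pi) : phi a ξ ≤ Real.exp (-(ξ ^ 2 / 6)) := by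
  have hb : ∀ i, |ξ * a i| ≤ Real.pi := by
    intro i
    rw [abs_mul, abs_of_nonneg h0]
    nlinarith [ha i, abs_nonneg (a i), Real.pi_pos]
  have h2 := prod_exp_sq a hsum ξ (1 / 6)
  have e : -(ξ ^ 2 * (1 / 6)) = -(ξ ^ 2 / 6) := by ring
  rw [e] at h2
  rw [← h2]
  unfold phi
  apply Finset.prod_le_prod
  · intro i _; exact sinc_nonneg (hb i)
  · intro i _
    have := sinc_le_exp (hb i)
    rwa [show (ξ * a i) ^ 2 * (1 / 6) = (ξ * a i) ^ 2 / 6 by ring]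

theorem sum_pow_four {n : ℕ} (a : Fin n → ℝ) (hsum : ∑ j, a j ^ 2 = 1)
    (ha : ∀ i, |a i| ≤ 1 / 2) : ∑ i, a i ^ 4 ≤ 1 / 4 := by
  have : ∑ i, a i ^ 4 ≤ ∑ i, (1 / 4) * a i ^ 2 := by
    apply Finset.sum_le_sum
    intro i _
    have h1 : a i ^ 2 ≤ 1 / 4 := by
      have := ha i
      rw [← sq_abs]
      nlinarith [abs_nonneg (a i)]
    nlinarith [sq_nonneg (a i)]
  rw [← Finset.mul_sum, hsum] at this
  linarith

theorem phi_ge_exp {n : ℕ} (a : Fin n → ℝ) (hsum : ∑ j, a j ^ 2 = 1) (ha : ∀ i, |a i| ≤ 1 / 2)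
    {ξ : ℝ} (h1 : ξ ^ 2 ≤ 14.4) :
    Real.exp (-(ξ ^ 2 / 6)) * (1 - ξ ^ 4 / 544) ≤ phi a ξ := by
  have hsq : ∀ i, a i ^ 2 ≤ 1 / 4 := by
    intro i
    have := ha i
    rw [← sq_abs]
    nlinarith [abs_nonneg (a i)]
  have hb : ∀ i, (ξ * a i) ^ 2 ≤ 3.6 := by
    intro i
    rw [mul_pow]
    nlinarith [hsq i, sq_nonneg ξ, sq_nonneg (a i)]
  have h4 : ∀ i, 0 ≤ (ξ * a i) ^ 4 / 136 := by intro i; positivity
  have h5 : ∀ i, (ξ * a i) ^ 4 / 136 ≤ 1 := by
    intro i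
    have : (ξ * a i) ^ 4 = ((ξ * a i) ^ 2) ^ 2 := by ring
    rw [this]
    nlinarith [hb i, sq_nonneg (ξ * a i)]
  have h2 := prod_exp_sq a hsum ξ (1 / 6)
  have e : -(ξ ^ 2 * (1 / 6)) = -(ξ ^ 2 / 6) := by ring
  rw [e] at h2
  have h6 := prod_one_sub_ge Finset.univ (fun i => (ξ * a i) ^ 4 / 136) (fun i _ => h4 i)
    (fun i _ => h5 i)
  have h7 : ∑ i, (ξ * a i) ^ 4 / 136 ≤ ξ ^ 4 / 544 := by
    have : ∀ i, (ξ * a i) ^ 4 / 136 = (ξ ^ 4 / 136) * a i ^ 4 := by intro i; ring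
    simp only [this]
    rw [← Finset.mul_sum]
    have h8 := sum_pow_four a hsum ha
    have h9 : 0 ≤ ξ ^ 4 / 136 := by positivity
    nlinarith
  calc Real.exp (-(ξ ^ 2 / 6)) * (1 - ξ ^ 4 / 544)
      ≤ Real.exp (-(ξ ^ 2 / 6)) * ∏ i, (1 - (ξ * a i) ^ 4 / 136) := by
        apply mul_le_mul_of_nonneg_left _ (Real.exp_pos _).le
        linarith
    _ = ∏ i, (Real.exp (-((ξ * a i) ^ 2 * (1 / 6))) * (1 - (ξ * a i) ^ 4 / 136)) := by
        rw [← h2, Finset.prod_mul_distrib]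
    _ ≤ phi a ξ := by
        unfold phi
        apply Finset.prod_le_prod
        · intro i _
          exact mul_nonneg (Real.exp_pos _).le (by linarith [h5 i])
        · intro i _
          have := sinc_ge_exp (hb i)
          rwa [show (ξ * a i) ^ 2 * (1 / 6) = (ξ * a i) ^ 2 / 6 by ring]

theorem log_le_div_e {Z : ℝ} (hZ : 0 < Z) : Real.log Z ≤ Z / Real.exp 1 := by
  have h := Real.log_le_sub_one_of_pos (div_pos hZ (Real.exp_pos 1))
  rw [Real.log_div hZ.ne' (Real.exp_pos 1).ne', Real.log_exp] at h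
  linarith

theorem exp_one_le_pi : Real.exp 1 ≤ Real.pi := by
  have := Real.exp_one_lt_d9
  have := Real.pi_gt_three
  have := Real.pi_gt_d2
  linarith

theorem sinc_tail_bound {z Z : ℝ} (hZ : Real.pi ≤ Z) (hz0 : 0 ≤ z) (hz : z ≤ Z) :
    |Real.sinc z| ≤ Real.exp (-(z ^ 2 * (Real.log Z / Z ^ 2))) := by
  have hpi := Real.pi_gt_three
  have hZ0 : 0 < Z := by linarith
  have hlogZ : 0 ≤ Real.log Z := Real.log_nonneg (by linarith)
  rcases le_total z Real.pi with h | h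
  · have habs : |z| ≤ Real.pi := by rwa [abs_of_nonneg hz0]
    rw [abs_of_nonneg (sinc_nonneg habs)]
    refine le_trans (sinc_le_exp habs) ?_
    apply Real.exp_le_exp.2
    have h1 : Real.log Z / Z ^ 2 ≤ 1 / 6 := by
      rw [div_le_iff₀ (by positivity)]
      have h2 := log_le_div_e hZ0
      have h3 : Z / Real.exp 1 ≤ Z / 2.7 := by
        apply div_le_div_of_nonneg_left hZ0.le (by norm_num)
        have := Real.exp_one_gt_d9
        linarith
      have h4 : Z / 2.7 ≤ 1 / 6 * Z ^ 2 := by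
        rw [div_le_iff₀ (by norm_num)]
        nlinarith
      linarith
    nlinarith [sq_nonneg z]
  · have hz1 : 0 < z := by linarith
    have h1 := abs_sinc_le_inv hz1.ne'
    refine le_trans h1 ?_
    rw [abs_of_pos hz1, ← Real.exp_log (inv_pos.2 hz1), Real.log_inv]
    apply Real.exp_le_exp.2
    have hlogz : 0 ≤ Real.log z := Real.log_nonneg (by linarith)
    have hanti := Real.log_div_self_antitoneOn (mem_Ici.2 (le_trans exp_one_le_pi h))
      (mem_Ici.2 (le_trans exp_one_le_pi hZ)) hz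
    simp only at hanti
    have h2 : Real.log Z / Z ^ 2 = (Real.log Z / Z) / Z := by
      rw [div_div, sq]
    have h3 : (Real.log Z / Z) / Z ≤ (Real.log z / z) / z := by
      apply div_le_div₀ _ hanti hz1 hz
      positivity
    have h4 : z ^ 2 * (Real.log Z / Z ^ 2) ≤ Real.log z := by
      rw [h2]
      calc z ^ 2 * ((Real.log Z / Z) / Z) ≤ z ^ 2 * ((Real.log z / z) / z) :=
            mul_le_mul_of_nonneg_left h3 (sq_nonneg z)
        _ = Real.log z := by field_simp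
    linarith

theorem phi_tail {n : ℕ} (a : Fin n → ℝ) (hsum : ∑ j, a j ^ 2 = 1) (ha : ∀ i, |a i| ≤ 1 / 2)
    {ξ : ℝ} (h1 : 2 * Real.pi ≤ ξ) : |phi a ξ| ≤ 16 / ξ ^ 4 := by
  have hpi := Real.pi_pos
  have hξ : 0 < ξ := by linarith
  set Z := ξ / 2 with hZ
  have hZpi : Real.pi ≤ Z := by rw [hZ]; linarith
  have hZ0 : 0 < Z := by linarith
  have h2 := prod_exp_sq a hsum ξ (Real.log Z / Z ^ 2)
  have h3 : |phi a ξ| ≤ ∏ i, Real.exp (-((ξ * a i) ^ 2 * (Real.log Z / Z ^ 2))) := by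
    unfold phi
    rw [Finset.abs_prod]
    apply Finset.prod_le_prod
    · intro i _; exact abs_nonneg _
    · intro i _
      rw [sinc_abs, ← sq_abs (ξ * a i)]
      apply sinc_tail_bound hZpi (abs_nonneg _)
      rw [abs_mul, abs_of_pos hξ, hZ]
      nlinarith [ha i]
  rw [h2] at h3
  refine le_trans h3 (le_of_eq ?_)
  have h4 : ξ ^ 2 * (Real.log Z / Z ^ 2) = Real.log (Z ^ 4) := by
    rw [Real.log_pow, hZ]
    field_simp
    norm_num
    ring
  rw [h4, Real.exp_neg, Real.exp_log (by positivity), hZ]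
  field_simp
  norm_num

theorem phi_sq_le {n : ℕ} (a : Fin n → ℝ) (hsum : ∑ j, a j ^ 2 = 1) (ξ : ℝ) :
    phi a ξ ^ 2 * (1 + ξ ^ 2 / 3) ≤ 1 := by
  have h1 : 1 + ξ ^ 2 / 3 ≤ ∏ i, (1 + (ξ * a i) ^ 2 / 3) := by
    have h := prod_one_add_ge Finset.univ (fun i => (ξ * a i) ^ 2 / 3) (fun i _ => by positivity)
    have e : ∑ i, (ξ * a i) ^ 2 / 3 = ξ ^ 2 / 3 := by
      have : ∀ i, (ξ * a i) ^ 2 / 3 = (ξ ^ 2 / 3) * a i ^ 2 := by intro i; ring
      simp only [this]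
      rw [← Finset.mul_sum, hsum, mul_one]
    rw [e] at h
    exact h
  calc phi a ξ ^ 2 * (1 + ξ ^ 2 / 3) ≤ phi a ξ ^ 2 * ∏ i, (1 + (ξ * a i) ^ 2 / 3) :=
        mul_le_mul_of_nonneg_left h1 (sq_nonneg _)
    _ = ∏ i, (Real.sinc (ξ * a i) ^ 2 * (1 + (ξ * a i) ^ 2 / 3)) := by
        unfold phi
        rw [Finset.prod_mul_distrib, Finset.prod_pow]
    _ ≤ 1 := by
        apply Finset.prod_le_one
        · intro i _; positivity
        · intro i _; exact sinc_sq_le _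

theorem phi_continuous {n : ℕ} (a : Fin n → ℝ) : Continuous (phi a) := by
  unfold phi
  apply continuous_finsetProd
  intro i _
  exact Real.continuous_sinc.comp (by fun_prop)

theorem phi_neg {n : ℕ} (a : Fin n → ℝ) (ξ : ℝ) : phi a (-ξ) = phi a ξ := by
  unfold phi
  congr 1
  ext i
  rw [neg_mul, Real.sinc_neg]

end Pool.Agent.H60.Slab
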