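import Pool.Agent.H60.Slab.Comb

set_option autoImplicit false

open MeasureTheory Set Complex FourierTransform

namespace Pool.Agent.H60.Slab

/-- complex indicator of [-t,t]. -/
noncomputable def chi (t : ℝ) (s : ℝ) : ℂ := (Icc (-t) t).indicator (fun _ => (1 : ℂ)) s

theorem int_exp_sinc (θ : ℝ) :
    ∫ u in (-1 : ℝ)..1, cexp ((θ * u : ℝ) * I) = 2 * (Real.sinc θ : ℂ) := by
  by_cases h : θ = 0
  · subst h; simp; norm_num
  · have hc : ((θ : ℂ) * I) ≠ 0 := by simp [h]
    have e : (fun u : ℝ => cexp ((θ * u : ℝ) * I)) = fun u : ℝ => cexp (((θ : ℂ) * I) * u) := by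
      ext u; congr 1; push_cast; ring
    rw [e, integral_exp_mul_complex hc, Real.sinc_of_ne_zero h]
    push_cast
    have h1 : cexp (↑θ * I * 1) = Complex.cos θ + Complex.sin θ * I := by
      rw [mul_one, Complex.exp_mul_I]
    have h2 : cexp (↑θ * I * (-1)) = Complex.cos θ - Complex.sin θ * I := by
      have : (↑θ * I * (-1) : ℂ) = (-θ) * I := by ring
      rw [this, Complex.exp_mul_I, Complex.cos_neg, Complex.sin_neg]
      ring
    rw [h1, h2]
    have hθ : (θ : ℂ) ≠ 0 := by exact_mod_cast h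
    field_simp
    ring

theorem int_exp_interval {t : ℝ} (ht : 0 < t) (w : ℝ) :
    ∫ y in (-t)..t, cexp ((w * y : ℝ) * I) = 2 * t * (Real.sinc (w * t) : ℂ) := by
  have h := intervalIntegral.integral_comp_mul_left (a := -1) (b := 1)
    (fun y : ℝ => cexp ((w * y : ℝ) * I)) ht.ne'
  have h2 := int_exp_sinc (w * t)
  have e : (fun u : ℝ => cexp ((w * t * u : ℝ) * I)) = fun u : ℝ => cexp ((w * (t * u) : ℝ) * I) := by
    ext u; congr 3; ring
  rw [e, h] at h2
  simp only [mul_neg, mul_one] at h2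
  have ht' : (t : ℂ) ≠ 0 := by exact_mod_cast ht.ne'
  rw [real_smul, ofReal_inv] at h2
  field_simp at h2
  rw [h2]
  ring

theorem cube_exp (n : ℕ) (a : Fin n → ℝ) (w : ℝ) :
    ∫ x, cexp ((w * dot x a : ℝ) * I) ∂(cubeM n) = ∏ i, (2 * (Real.sinc (w * a i) : ℂ)) := by
  have h := integral_fintype_prod_eq_prod (𝕜 := ℂ) (ι := Fin n) (E := fun _ => ℝ)
    (μ := fun _ => (volume : Measure ℝ).restrict (Icc (-1 : ℝ) 1))
    (fun i u => cexp ((w * a i * u : ℝ) * I))
  unfold cubeM
  have e : ∀ x : Fin n → ℝ, cexp ((w * dot x a : ℝ) * I) =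
      ∏ i, cexp ((w * a i * x i : ℝ) * I) := by
    intro x
    rw [← Complex.exp_sum]
    congr 1
    rw [← Finset.sum_mul, ← ofReal_sum, dot, Finset.mul_sum]
    congr 3
    ext i; ring
  simp only [e]
  rw [h]
  congr 1
  ext i
  rw [integral_Icc_eq_integral_Ioc, ← intervalIntegral.integral_of_le (by norm_num),
    int_exp_sinc]

theorem chi_eq_ofReal (t s : ℝ) : chi t s = (((Icc (-t) t).indicator (fun _ => (1 : ℝ)) s : ℝ) : ℂ) := by
  unfold chi
  by_cases h : s ∈ Icc (-t) t <;> simp [h]

theorem FV_eq_chi {n : ℕ} (a : Fin n → ℝ) (t y : ℝ) :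
    (FV a t y : ℂ) = ∫ x, chi t (y + dot x a) ∂(cubeM n) := by
  rw [FV_eq_integral, ← integral_complex_ofReal]
  congr 1
  ext x
  rw [chi_eq_ofReal]

theorem chi_integrable (t : ℝ) : Integrable (chi t) := by
  unfold chi
  apply (integrable_indicator_iff measurableSet_Icc).2
  exact integrableOn_const (by simp)

theorem chi_measurable (t : ℝ) : Measurable (chi t) := by
  unfold chi
  exact measurable_const.indicator measurableSet_Icc

theorem prod_integrable {n : ℕ} (a : Fin n → ℝ) (t w : ℝ) :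
    Integrable (fun p : ℝ × (Fin n → ℝ) => cexp ((w * p.1 : ℝ) * I) * chi t (p.1 + dot p.2 a))
      ((volume : Measure ℝ).prod (cubeM n)) := by
  have hm : Measurable (fun p : ℝ × (Fin n → ℝ) =>
      cexp ((w * p.1 : ℝ) * I) * chi t (p.1 + dot p.2 a)) := by
    apply Measurable.mul
    · have : Continuous (fun p : ℝ × (Fin n → ℝ) => cexp ((w * p.1 : ℝ) * I)) := by fun_prop
      exact this.measurable
    · apply (chi_measurable t).comp
      have h1 : Continuous (fun p : ℝ × (Fin n → ℝ) => p.1 + dot p.2 a) :=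
        continuous_fst.add ((continuous_dot a).comp continuous_snd)
      exact h1.measurable
  rw [integrable_prod_iff' hm.aestronglyMeasurable]
  have hnorm : ∀ (x : Fin n → ℝ) (y : ℝ), ‖cexp ((w * y : ℝ) * I) * chi t (y + dot x a)‖ =
      ‖chi t (y + dot x a)‖ := by
    intro x y
    rw [norm_mul, Complex.norm_exp_ofReal_mul_I, one_mul]
  constructor
  · refine Filter.Eventually.of_forall fun x => ?_
    simp only
    have h1 : Integrable (fun y : ℝ => chi t (y + dot x a)) :=
      (chi_integrable t).comp_add_right (dot x a)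
    refine h1.mono ?_ (Filter.Eventually.of_forall fun y => (hnorm x y).le)
    have : Measurable (fun y : ℝ => cexp ((w * y : ℝ) * I) * chi t (y + dot x a)) := by
      apply Measurable.mul
      · have : Continuous (fun y : ℝ => cexp ((w * y : ℝ) * I)) := by fun_prop
        exact this.measurable
      · exact (chi_measurable t).comp (by fun_prop)
    exact this.aestronglyMeasurable
  · simp only [hnorm]
    have e : ∀ x : Fin n → ℝ, ∫ y : ℝ, ‖chi t (y + dot x a)‖ = ∫ y : ℝ, ‖chi t y‖ := fun x =>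
      integral_add_right_eq_self (fun y => ‖chi t y‖) (dot x a)
    simp only [e]
    exact integrable_const _

theorem int_chi_exp {t : ℝ} (ht : 0 < t) (w : ℝ) :
    ∫ y : ℝ, cexp ((w * y : ℝ) * I) * chi t y = 2 * t * (Real.sinc (w * t) : ℂ) := by
  have e : (fun y : ℝ => cexp ((w * y : ℝ) * I) * chi t y) =
      (Icc (-t) t).indicator (fun y : ℝ => cexp ((w * y : ℝ) * I)) := by
    ext y
    unfold chi
    by_cases h : y ∈ Icc (-t) t <;> simp [h]
  rw [e, integral_indicator measurableSet_Icc, integral_Icc_eq_integral_Ioc,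
    ← intervalIntegral.integral_of_le (by linarith), int_exp_interval ht]

theorem fourier_FV {n : ℕ} (a : Fin n → ℝ) {t : ℝ} (ht : 0 < t) (w : ℝ) :
    𝓕 (fun y : ℝ => (FV a t y : ℂ)) w =
      (∏ i, (2 * (Real.sinc (2 * Real.pi * w * a i) : ℂ))) *
        (2 * t * (Real.sinc (2 * Real.pi * w * t) : ℂ)) := by
  rw [Real.fourier_real_eq_integral_exp_smul]
  have e1 : ∀ v : ℝ, cexp (((-2 * Real.pi * v * w : ℝ) : ℂ) * I) • (FV a t v : ℂ) =
      ∫ x, cexp (((-2 * Real.pi * w) * v : ℝ) * I) * chi t (v + dot x a) ∂(cubeM n) := by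
    intro v
    rw [FV_eq_chi, smul_eq_mul, ← integral_const_mul]
    congr 1
    ext x
    congr 3
    push_cast
    ring
  simp only [e1]
  rw [integral_integral_swap (prod_integrable a t (-2 * Real.pi * w))]
  have e2 : ∀ x : Fin n → ℝ, ∫ v : ℝ, cexp (((-2 * Real.pi * w) * v : ℝ) * I) *
      chi t (v + dot x a) = cexp ((2 * Real.pi * w * dot x a : ℝ) * I) *
        (2 * t * (Real.sinc (2 * Real.pi * w * t) : ℂ)) := by
    intro x
    have h1 := integral_add_right_eq_self (μ := (volume : Measure ℝ))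
      (fun y : ℝ => cexp (((-2 * Real.pi * w) * (y - dot x a) : ℝ) * I) * chi t y) (dot x a)
    simp only [add_sub_cancel_right] at h1
    rw [h1]
    have h2 := int_chi_exp ht (-2 * Real.pi * w)
    have h3 : Real.sinc (-2 * Real.pi * w * t) = Real.sinc (2 * Real.pi * w * t) := by
      rw [← Real.sinc_neg]; congr 1; ring
    rw [h3] at h2
    rw [← h2, ← integral_const_mul]
    congr 1
    ext y
    rw [← mul_assoc, ← Complex.exp_add]
    congr 2
    push_cast
    ring
  simp only [e2]
  rw [integral_mul_const, cube_exp]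

end Pool.Agent.H60.Slab
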