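import Pool.Agent.H60.Slab.Fourier
import Pool.Agent.H60.Slab.Phi

set_option autoImplicit false

open MeasureTheory Set Complex FourierTransform

namespace Pool.Agent.H60.Slab

theorem FV_integrable {n : ℕ} (a : Fin n → ℝ) (t : ℝ) :
    Integrable (fun y : ℝ => (FV a t y : ℂ)) := by
  have h := (prod_integrable a t 0).integral_prod_left
  refine h.congr (Filter.Eventually.of_forall fun y => ?_)
  simp only [zero_mul, ofReal_zero, Complex.exp_zero, one_mul]
  rw [← FV_eq_chi]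

theorem clamp_abs_le {t : ℝ} (ht : 0 ≤ t) (x : ℝ) : |clamp t x| ≤ t := by
  rw [abs_le]
  unfold clamp
  exact ⟨le_max_left _ _, max_le (by linarith) (min_le_right _ _)⟩

theorem FV_continuous_pos {n : ℕ} (a : Fin (n + 1) → ℝ) (i : Fin (n + 1)) (hb : 0 < a i) {t : ℝ}
    (ht : 0 ≤ t) : Continuous (fun y : ℝ => FV a t y) := by
  have e : (fun y : ℝ => FV a t y) = fun y => (a i)⁻¹ * ∫ x',
      (clamp t (y + dot x' (fun j => a (i.succAbove j)) + a i) -
      clamp t (y + dot x' (fun j => a (i.succAbove j)) - a i)) ∂(cubeM n) := by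
    ext y; exact FV_split a i hb ht y
  rw [e]
  apply Continuous.mul continuous_const
  apply continuous_of_dominated (bound := fun _ => 2 * t)
  · intro y
    have h1 := continuous_dot (fun j => a (i.succAbove j))
    have h2 := clamp_continuous t
    exact (by fun_prop : Continuous (fun x' : Fin n → ℝ =>
      clamp t (y + dot x' (fun j => a (i.succAbove j)) + a i) -
      clamp t (y + dot x' (fun j => a (i.succAbove j)) - a i))).aestronglyMeasurable
  · intro y
    refine Filter.Eventually.of_forall fun x => ?_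
    have h1 := clamp_abs_le ht (y + dot x (fun j => a (i.succAbove j)) + a i)
    have h2 := clamp_abs_le ht (y + dot x (fun j => a (i.succAbove j)) - a i)
    rw [Real.norm_eq_abs]
    have := abs_sub (clamp t (y + dot x (fun j => a (i.succAbove j)) + a i))
      (clamp t (y + dot x (fun j => a (i.succAbove j)) - a i))
    linarith
  · exact integrable_const _
  · refine Filter.Eventually.of_forall fun x => ?_
    have h2 := clamp_continuous t
    fun_prop

theorem FV_neg' {n : ℕ} (a : Fin n → ℝ) (t y : ℝ) : FV (fun i => - a i) t (-y) = FV a t y := by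
  unfold FV
  congr 1
  ext x
  have : dot x (fun i => - a i) = - dot x a := by
    simp [dot, Finset.sum_neg_distrib]
  simp only [mem_setOf_eq, this]
  rw [show -y + -dot x a = -(y + dot x a) by ring, abs_neg]

theorem FV_continuous {n : ℕ} (a : Fin n → ℝ) (hsum : ∑ j, a j ^ 2 = 1) {t : ℝ}
    (ht : 0 ≤ t) : Continuous (fun y : ℝ => FV a t y) := by
  cases n with
  | zero => simp at hsum
  | succ n =>
    have hex : ∃ i, a i ≠ 0 := by
      by_contra hcon
      push Not at hcon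
      simp [hcon] at hsum
    obtain ⟨i, hi⟩ := hex
    rcases lt_or_gt_of_ne hi with h' | h'
    · have h1 := FV_continuous_pos (fun j => - a j) i (by simpa using h') ht
      have h2 : Continuous (fun y : ℝ => FV (fun j => - a j) t (-y)) := h1.comp continuous_neg
      simpa only [FV_neg'] using h2
    · exact FV_continuous_pos a i h' ht

theorem phi_sinc_bound {n : ℕ} (a : Fin n → ℝ) (hsum : ∑ j, a j ^ 2 = 1) {t : ℝ} (ht : 0 < t)
    (ht1 : t ≤ 1) (ξ : ℝ) : |phi a ξ * Real.sinc (t * ξ)| ≤ (3 / t) * (1 + ξ ^ 2)⁻¹ := by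
  have h1 := phi_sq_le a hsum ξ
  have h2 := sinc_sq_le (t * ξ)
  have hA : 0 < 1 + ξ ^ 2 / 3 := by positivity
  have h3 : phi a ξ ^ 2 ≤ (1 + ξ ^ 2 / 3)⁻¹ := by
    rw [← one_div, le_div_iff₀ hA]; exact h1
  have h4 : Real.sinc (t * ξ) ^ 2 ≤ (t ^ 2 * (1 + ξ ^ 2 / 3))⁻¹ := by
    rw [← one_div, le_div_iff₀ (by positivity)]
    refine le_trans ?_ h2
    apply mul_le_mul_of_nonneg_left _ (sq_nonneg _)
    nlinarith [sq_nonneg ξ]
  have h5 : (phi a ξ * Real.sinc (t * ξ)) ^ 2 ≤ (1 / t * (1 + ξ ^ 2 / 3)⁻¹) ^ 2 := by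
    rw [mul_pow]
    calc phi a ξ ^ 2 * Real.sinc (t * ξ) ^ 2
        ≤ (1 + ξ ^ 2 / 3)⁻¹ * (t ^ 2 * (1 + ξ ^ 2 / 3))⁻¹ :=
          mul_le_mul h3 h4 (sq_nonneg _) (by positivity)
      _ = (1 / t * (1 + ξ ^ 2 / 3)⁻¹) ^ 2 := by
          field_simp
  have h6 := abs_le_of_sq_le_sq h5 (by positivity)
  refine le_trans h6 ?_
  have h7 : (1 + ξ ^ 2 / 3)⁻¹ ≤ 3 * (1 + ξ ^ 2)⁻¹ := by
    rw [← one_div, div_le_iff₀ hA]
    have h8 : 0 < 1 + ξ ^ 2 := by positivity
    have h9 : 3 * (1 + ξ ^ 2)⁻¹ * (1 + ξ ^ 2 / 3) = (3 + ξ ^ 2) / (1 + ξ ^ 2) := by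
      field_simp
    rw [h9, le_div_iff₀ h8]
    linarith
  calc 1 / t * (1 + ξ ^ 2 / 3)⁻¹ ≤ 1 / t * (3 * (1 + ξ ^ 2)⁻¹) :=
        mul_le_mul_of_nonneg_left h7 (by positivity)
    _ = (3 / t) * (1 + ξ ^ 2)⁻¹ := by ring

theorem phi_sinc_continuous {n : ℕ} (a : Fin n → ℝ) (t : ℝ) :
    Continuous (fun ξ => phi a ξ * Real.sinc (t * ξ)) :=
  (phi_continuous a).mul (Real.continuous_sinc.comp (by fun_prop))

theorem phi_sinc_integrable {n : ℕ} (a : Fin n → ℝ) (hsum : ∑ j, a j ^ 2 = 1) {t : ℝ}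
    (ht : 0 < t) (ht1 : t ≤ 1) : Integrable (fun ξ => phi a ξ * Real.sinc (t * ξ)) := by
  refine Integrable.mono' (integrable_inv_one_add_sq.const_mul (3 / t))
    (phi_sinc_continuous a t).aestronglyMeasurable ?_
  exact Filter.Eventually.of_forall fun ξ => phi_sinc_bound a hsum ht ht1 ξ

theorem FV_inv {n : ℕ} (a : Fin n → ℝ) (hsum : ∑ j, a j ^ 2 = 1) {t : ℝ}
    (ht : 0 < t) (ht1 : t ≤ 1) :
    FV a t 0 = 2 ^ n * (2 * t / Real.pi) * ∫ ξ in Ioi (0 : ℝ), phi a ξ * Real.sinc (t * ξ) := by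
  have hpi := Real.pi_pos
  have h1 := FV_integrable a t
  have hFT : 𝓕 (fun y : ℝ => (FV a t y : ℂ)) = fun w : ℝ =>
      ((2 ^ n * (2 * t) * (phi a (2 * Real.pi * w) * Real.sinc (t * (2 * Real.pi * w))) : ℝ) : ℂ) := by
    ext w
    rw [fourier_FV a ht w]
    unfold phi
    push_cast
    rw [Finset.prod_mul_distrib]
    simp only [Finset.prod_const, Finset.card_univ, Fintype.card_fin]
    rw [show t * (2 * Real.pi * w) = 2 * Real.pi * w * t by ring]
    ring
  have hint := phi_sinc_integrable a hsum ht ht1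
  have hint2 : Integrable (fun w : ℝ => phi a (2 * Real.pi * w) *
      Real.sinc (t * (2 * Real.pi * w))) :=
    hint.comp_mul_left' (by positivity : (2 * Real.pi) ≠ 0)
  have h2 : Integrable (𝓕 (fun y : ℝ => (FV a t y : ℂ))) := by
    rw [hFT]
    exact (hint2.const_mul (2 ^ n * (2 * t))).ofReal
  have h3 : ContinuousAt (fun y : ℝ => (FV a t y : ℂ)) 0 :=
    (continuous_ofReal.comp (FV_continuous a hsum ht.le)).continuousAt
  have h4 := h1.fourierInv_fourier_eq h2 h3
  rw [Real.fourierInv_eq', hFT] at h4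
  simp only [inner_zero_right, mul_zero, ofReal_zero, zero_mul, Complex.exp_zero, one_smul] at h4
  rw [integral_complex_ofReal] at h4
  have h5 := ofReal_injective h4
  rw [← h5, integral_const_mul]
  have h6 := Measure.integral_comp_mul_left (fun ξ => phi a ξ * Real.sinc (t * ξ)) (2 * Real.pi)
  rw [h6]
  have h7 : ∫ ξ, phi a ξ * Real.sinc (t * ξ) =
      2 * ∫ ξ in Ioi (0 : ℝ), phi a ξ * Real.sinc (t * ξ) := by
    rw [← integral_comp_abs (f := fun ξ => phi a ξ * Real.sinc (t * ξ))]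
    congr 1
    ext ξ
    rcases abs_cases ξ with ⟨h, _⟩ | ⟨h, _⟩ <;> rw [h]
    rw [phi_neg, mul_neg, Real.sinc_neg]
  rw [h7, abs_of_pos (by positivity), smul_eq_mul]
  field_simp

end Pool.Agent.H60.Slab
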