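import Mathlib

set_option autoImplicit false

open MeasureTheory Set

namespace Pool.Agent.H60.Slab

/-- Lebesgue measure on the cube, as a product measure. -/
noncomputable def cubeM (n : ℕ) : Measure (Fin n → ℝ) :=
  Measure.pi (fun _ => (volume : Measure ℝ).restrict (Icc (-1 : ℝ) 1))

/-- the linear form. -/
def dot {n : ℕ} (x a : Fin n → ℝ) : ℝ := ∑ i, x i * a i

/-- truncation to [-t,t]. -/
noncomputable def clamp (t x : ℝ) : ℝ := max (-t) (min x t)

instance instFiniteCube (n : ℕ) : IsFiniteMeasure (cubeM n) := by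
  unfold cubeM; infer_instance

theorem cubeM_eq (n : ℕ) : cubeM n =
    (volume : Measure (Fin n → ℝ)).restrict (Icc (fun _ => (-1 : ℝ)) (fun _ => 1)) := by
  have h := Measure.restrict_pi_pi (fun _ : Fin n => (volume : Measure ℝ)) (fun _ => Icc (-1 : ℝ) 1)
  unfold cubeM
  rw [← h]
  congr 1
  ext x
  simp [Set.mem_Icc, Pi.le_def]

theorem continuous_dot {n : ℕ} (a : Fin n → ℝ) : Continuous (fun x : Fin n → ℝ => dot x a) := by
  unfold dot; fun_prop

theorem integrable_cube_of_continuous {n : ℕ} {E : Type*} [NormedAddCommGroup E]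
    {f : (Fin n → ℝ) → E}
    (hf : Continuous f) : Integrable f (cubeM n) := by
  rw [cubeM_eq]
  exact (hf.continuousOn.integrableOn_compact isCompact_Icc)

/-- splitting of coordinate `i`. -/
theorem integral_split {n : ℕ} {E : Type*} [NormedAddCommGroup E] [NormedSpace ℝ E]
    (i : Fin (n + 1)) (f : (Fin (n + 1) → ℝ) → E) (hf : Integrable f (cubeM (n + 1))) :
    ∫ x, f x ∂(cubeM (n + 1)) =
      ∫ x', (∫ u in (-1 : ℝ)..1, f (i.insertNth u x')) ∂(cubeM n) := by
  have hmp := measurePreserving_piFinSuccAbove (n := n) (α := fun _ => ℝ)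
    (fun _ => (volume : Measure ℝ).restrict (Icc (-1 : ℝ) 1)) i
  have hmp' := hmp.symm
  have e1 : ∫ x, f x ∂(cubeM (n + 1)) =
      ∫ p, f ((MeasurableEquiv.piFinSuccAbove (fun _ => ℝ) i).symm p)
        ∂(((volume : Measure ℝ).restrict (Icc (-1 : ℝ) 1)).prod (cubeM n)) := by
    exact (hmp'.integral_comp' (g := f)).symm
  have hint : Integrable (fun p => f ((MeasurableEquiv.piFinSuccAbove (fun _ => ℝ) i).symm p))
      (((volume : Measure ℝ).restrict (Icc (-1 : ℝ) 1)).prod (cubeM n)) := by
    exact (hmp'.integrable_comp_emb (MeasurableEquiv.measurableEmbedding _)).2 hf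
  rw [e1, integral_prod_symm _ hint]
  congr 1
  ext x'
  rw [intervalIntegral.integral_of_le (by norm_num), integral_Icc_eq_integral_Ioc]
  rfl

theorem dot_insertNth {n : ℕ} (i : Fin (n + 1)) (u : ℝ) (x' : Fin n → ℝ) (a : Fin (n + 1) → ℝ) :
    dot (i.insertNth u x') a = u * a i + dot x' (fun j => a (i.succAbove j)) := by
  unfold dot
  rw [Fin.sum_univ_succAbove _ i]
  simp

theorem odd_interval {D : ℝ → ℝ} (hodd : ∀ x, D (-x) = - D x) (c : ℝ) :
    ∫ u in (-c)..c, D u = 0 := by
  have h := intervalIntegral.integral_comp_neg (a := -c) (b := c) D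
  simp only [hodd, neg_neg, intervalIntegral.integral_neg] at h
  linarith

theorem avg_odd {D : ℝ → ℝ} (hodd : ∀ x, D (-x) = - D x) (b x : ℝ) :
    (∫ u in (-1 : ℝ)..1, D (-x + u * b)) = - ∫ u in (-1 : ℝ)..1, D (x + u * b) := by
  have h := intervalIntegral.integral_comp_neg (a := -1) (b := 1) (fun u => D (-x + u * b))
  simp only [neg_neg] at h
  rw [← h, ← intervalIntegral.integral_neg]
  congr 1
  ext u
  rw [← hodd]
  congr 1
  ring

theorem avg_even_b (D : ℝ → ℝ) (b x : ℝ) :
    (∫ u in (-1 : ℝ)..1, D (x + u * (-b))) = ∫ u in (-1 : ℝ)..1, D (x + u * b) := by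
  have h := intervalIntegral.integral_comp_neg (a := -1) (b := 1) (fun u => D (x + u * b))
  simp only [neg_neg] at h
  rw [← h]
  congr 1
  ext u
  congr 1
  ring

theorem avg_eq_interval (D : ℝ → ℝ) {b : ℝ} (hb : b ≠ 0) (x : ℝ) :
    (∫ u in (-1 : ℝ)..1, D (x + u * b)) = b⁻¹ * ∫ s in (x - b)..(x + b), D s := by
  have h := intervalIntegral.integral_comp_add_mul (a := -1) (b := 1) D hb x
  have e : (fun u : ℝ => D (x + u * b)) = fun u => D (x + b * u) := by
    ext u; rw [mul_comm]
  rw [e, h]
  simp [sub_eq_add_neg]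

theorem avg_nonneg {D : ℝ → ℝ} (hc : Continuous D) (hodd : ∀ x, D (-x) = - D x)
    (hpos : ∀ x, 0 ≤ x → 0 ≤ D x) (b x : ℝ) (hx : 0 ≤ x) :
    0 ≤ ∫ u in (-1 : ℝ)..1, D (x + u * b) := by
  have key : ∀ b : ℝ, 0 < b → 0 ≤ ∫ u in (-1 : ℝ)..1, D (x + u * b) := by
    intro b hb
    rw [avg_eq_interval D hb.ne' x]
    refine mul_nonneg (inv_nonneg.2 hb.le) ?_
    rcases le_total b x with h | h
    · apply intervalIntegral.integral_nonneg (by linarith)
      intro u hu
      exact hpos u (by linarith [hu.1])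
    · have e : ∫ s in (x - b)..(x + b), D s =
          (∫ s in (x - b)..(b - x), D s) + ∫ s in (b - x)..(x + b), D s := by
        rw [intervalIntegral.integral_add_adjacent_intervals] <;>
          exact hc.intervalIntegrable _ _
      have e0 : ∫ s in (x - b)..(b - x), D s = 0 := by
        have := odd_interval hodd (b - x)
        rwa [neg_sub] at this
      rw [e, e0, zero_add]
      apply intervalIntegral.integral_nonneg (by linarith)
      intro u hu
      exact hpos u (by linarith [hu.1])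
  rcases lt_trichotomy b 0 with h | h | h
  · rw [← avg_even_b]
    exact key (-b) (by linarith)
  · subst h
    simp only [mul_zero, add_zero, intervalIntegral.integral_const, smul_eq_mul]
    have := hpos x hx
    linarith
  · exact key b h

theorem avg_continuous {D : ℝ → ℝ} (hc : Continuous D) (b : ℝ) :
    Continuous (fun x => ∫ u in (-1 : ℝ)..1, D (x + u * b)) := by
  apply intervalIntegral.continuous_parametric_intervalIntegral_of_continuous'
  fun_prop

theorem integral_dot_succ {n : ℕ} (i : Fin (n + 1)) {g : ℝ → ℝ} (hg : Continuous g)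
    (a : Fin (n + 1) → ℝ) (y : ℝ) :
    ∫ x, g (y + dot x a) ∂(cubeM (n + 1)) =
      ∫ x', (∫ u in (-1 : ℝ)..1, g ((y + dot x' (fun j => a (i.succAbove j))) + u * a i))
        ∂(cubeM n) := by
  rw [integral_split i]
  · congr 1
    ext x'
    congr 1
    ext u
    rw [dot_insertNth]
    congr 1
    ring
  · exact integrable_cube_of_continuous (hg.comp (continuous_const.add (continuous_dot a)))

theorem dot_zero_dim (x a : Fin 0 → ℝ) : dot x a = 0 := by simp [dot]

theorem integral_cube_zero (g : (Fin 0 → ℝ) → ℝ) (c : ℝ) (h : ∀ x, g x = c) :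
    ∫ x, g x ∂(cubeM 0) = c := by
  have : g = fun _ => c := funext h
  rw [this, integral_const]
  simp [cubeM, Measure.real]

/-- positivity propagates through symmetric sums of uniforms. -/
theorem Glemma : ∀ (n : ℕ) (a : Fin n → ℝ) (D : ℝ → ℝ), Continuous D → (∀ x, D (-x) = - D x) →
    (∀ x, 0 ≤ x → 0 ≤ D x) → ∀ y, 0 ≤ y → 0 ≤ ∫ x, D (y + dot x a) ∂(cubeM n) := by
  intro n
  induction n with
  | zero =>
    intro a D hc hodd hpos y hy
    rw [integral_cube_zero _ (D y) (by intro x; rw [dot_zero_dim, add_zero])]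
    exact hpos y hy
  | succ n ih =>
    intro a D hc hodd hpos y hy
    rw [integral_dot_succ 0 hc a y]
    exact ih (fun j => a ((0 : Fin (n + 1)).succAbove j))
      (fun z => ∫ u in (-1 : ℝ)..1, D (z + u * a 0)) (avg_continuous hc _)
      (fun x => avg_odd hodd _ x) (fun x hx => avg_nonneg hc hodd hpos _ x hx) y hy

theorem odd_cube : ∀ (n : ℕ) (a : Fin n → ℝ) (D : ℝ → ℝ), Continuous D →
    (∀ x, D (-x) = - D x) → ∀ y, ∫ x, D (-y + dot x a) ∂(cubeM n) =
      - ∫ x, D (y + dot x a) ∂(cubeM n) := by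
  intro n
  induction n with
  | zero =>
    intro a D hc hodd y
    rw [integral_cube_zero _ (D (-y)) (by intro x; rw [dot_zero_dim, add_zero]),
      integral_cube_zero _ (D y) (by intro x; rw [dot_zero_dim, add_zero]), hodd]
  | succ n ih =>
    intro a D hc hodd y
    rw [integral_dot_succ 0 hc a y, integral_dot_succ 0 hc a (-y)]
    exact ih (fun j => a ((0 : Fin (n + 1)).succAbove j))
      (fun z => ∫ u in (-1 : ℝ)..1, D (z + u * a 0)) (avg_continuous hc _)
      (fun x => avg_odd hodd _ x) y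

theorem moment_one (A B b z : ℝ) :
    ∫ u in (-1 : ℝ)..1, (A * (z + u * b) + B * (z + u * b) ^ 3) =
      2 * ((A + B * b ^ 2) * z + B * z ^ 3) := by
  have e : (fun u : ℝ => A * (z + u * b) + B * (z + u * b) ^ 3) =
      fun u => (A * z + B * z ^ 3) + (A * b + 3 * B * z ^ 2 * b) * u +
        (3 * B * z * b ^ 2) * u ^ 2 + (B * b ^ 3) * u ^ 3 := by
    ext u; ring
  have h1 : ∫ u in (-1 : ℝ)..1, (A * b + 3 * B * z ^ 2 * b) * u = 0 := by
    rw [intervalIntegral.integral_const_mul, integral_id]; norm_num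
  have h2 : ∫ u in (-1 : ℝ)..1, (3 * B * z * b ^ 2) * u ^ 2 = (3 * B * z * b ^ 2) * (2 / 3) := by
    rw [intervalIntegral.integral_const_mul, integral_pow]; norm_num
  have h3 : ∫ u in (-1 : ℝ)..1, (B * b ^ 3) * u ^ 3 = 0 := by
    rw [intervalIntegral.integral_const_mul, integral_pow]; norm_num
  rw [e]
  rw [intervalIntegral.integral_add, intervalIntegral.integral_add, intervalIntegral.integral_add,
    h1, h2, h3]
  · simp only [intervalIntegral.integral_const, smul_eq_mul]
    ring
  all_goals apply Continuous.intervalIntegrable; fun_prop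

theorem moment_cube : ∀ (n : ℕ) (a : Fin n → ℝ) (A B y : ℝ),
    ∫ x, (A * (y + dot x a) + B * (y + dot x a) ^ 3) ∂(cubeM n) =
      2 ^ n * ((A + B * ∑ i, a i ^ 2) * y + B * y ^ 3) := by
  intro n
  induction n with
  | zero =>
    intro a A B y
    rw [integral_cube_zero _ (A * y + B * y ^ 3) (by intro x; rw [dot_zero_dim, add_zero])]
    simp
  | succ n ih =>
    intro a A B y
    rw [integral_dot_succ 0 (g := fun s => A * s + B * s ^ 3) (by fun_prop) a y]
    simp only [moment_one]
    rw [integral_const_mul, ih, Fin.sum_univ_succAbove _ 0]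
    ring

/-- the main comparison lemma. -/
theorem G_le (n : ℕ) (a : Fin n → ℝ) (G : ℝ → ℝ) (hc : Continuous G) (hodd : ∀ x, G (-x) = - G x)
    (A B : ℝ) (hG : ∀ x, 0 ≤ x → G x ≤ A * x + B * x ^ 3) (y : ℝ) (hy : 0 ≤ y) :
    ∫ x, G (y + dot x a) ∂(cubeM n) ≤ 2 ^ n * ((A + B * ∑ i, a i ^ 2) * y + B * y ^ 3) := by
  have h := Glemma n a (fun s => (A * s + B * s ^ 3) - G s) (by fun_prop)
    (by intro x; simp only [hodd]; ring) (by intro x hx; linarith [hG x hx]) y hy
  rw [integral_sub, moment_cube] at h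
  · linarith
  · exact integrable_cube_of_continuous (by have := continuous_dot a; fun_prop)
  · exact integrable_cube_of_continuous (by have := continuous_dot a; fun_prop)

end Pool.Agent.H60.Slab
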