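import Pool.Agent.H60.Slab.Large

set_option autoImplicit false

open MeasureTheory Set

namespace Pool.Agent.H60.Slab

theorem comb_nonneg_pos {n : ℕ} (a : Fin (n + 1) → ℝ) (i : Fin (n + 1)) (hb : 0 < a i)
    (c1 c2 c3 : ℝ) {t1 t2 t3 : ℝ} (h1 : 0 ≤ t1) (h2 : 0 ≤ t2) (h3 : 0 ≤ t3)
    (h : ∀ x, 0 ≤ x → 0 ≤ c1 * min x t1 + c2 * min x t2 + c3 * min x t3) :
    0 ≤ c1 * FV a t1 0 + c2 * FV a t2 0 + c3 * FV a t3 0 := by
  have hD := Glemma n (fun j => a (i.succAbove j))
    (fun x => c1 * clamp t1 x + c2 * clamp t2 x + c3 * clamp t3 x)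
    (by have := clamp_continuous t1; have := clamp_continuous t2; have := clamp_continuous t3
        fun_prop)
    (by intro x; simp only [clamp_neg h1, clamp_neg h2, clamp_neg h3]; ring)
    (by
      intro x hx
      simp only [clamp_of_nonneg h1 hx, clamp_of_nonneg h2 hx, clamp_of_nonneg h3 hx]
      exact h x hx) (a i) hb.le
  have hint : ∀ t c : ℝ, Integrable (fun x' : Fin n → ℝ =>
      c * clamp t (a i + dot x' (fun j => a (i.succAbove j)))) (cubeM n) := fun t c =>
    integrable_cube_of_continuous (continuous_const.mul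
        ((clamp_continuous t).comp (continuous_const.add (continuous_dot _))))
  have hint12 : Integrable (fun x' : Fin n → ℝ =>
      c1 * clamp t1 (a i + dot x' (fun j => a (i.succAbove j))) +
      c2 * clamp t2 (a i + dot x' (fun j => a (i.succAbove j)))) (cubeM n) :=
    (hint t1 c1).add (hint t2 c2)
  rw [integral_add hint12 (hint t3 c3),
    integral_add (hint t1 c1) (hint t2 c2), integral_const_mul, integral_const_mul,
    integral_const_mul] at hD
  rw [FV_zero_eq a i hb h1, FV_zero_eq a i hb h2, FV_zero_eq a i hb h3]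
  have h4 : 0 ≤ 2 * (a i)⁻¹ := by positivity
  have h5 := mul_nonneg h4 hD
  linarith

theorem comb_nonneg {n : ℕ} (a : Fin n → ℝ) (hsum : ∑ j, a j ^ 2 = 1)
    (c1 c2 c3 : ℝ) {t1 t2 t3 : ℝ} (h1 : 0 ≤ t1) (h2 : 0 ≤ t2) (h3 : 0 ≤ t3)
    (h : ∀ x, 0 ≤ x → 0 ≤ c1 * min x t1 + c2 * min x t2 + c3 * min x t3) :
    0 ≤ c1 * FV a t1 0 + c2 * FV a t2 0 + c3 * FV a t3 0 := by
  cases n with
  | zero => simp at hsum
  | succ n =>
    have hex : ∃ i, a i ≠ 0 := by
      by_contra hcon
      push Not at hcon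
      simp [hcon] at hsum
    obtain ⟨i, hi⟩ := hex
    rcases lt_or_gt_of_ne hi with h' | h'
    · have := comb_nonneg_pos (fun j => - a j) i (by simpa using h') c1 c2 c3 h1 h2 h3 h
      simpa only [FV_neg] using this
    · exact comb_nonneg_pos a i h' c1 c2 c3 h1 h2 h3 h

theorem scale_le {n : ℕ} (a : Fin n → ℝ) (hsum : ∑ j, a j ^ 2 = 1) {t t1 : ℝ} (ht : 0 ≤ t)
    (ht1 : t ≤ t1) (ht1' : 0 < t1) : (t / t1) * FV a t1 0 ≤ FV a t 0 := by
  have h := comb_nonneg a hsum 1 (-(t / t1)) 0 ht ht1'.le le_rfl (by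
    intro x hx
    have h1 : t / t1 ≤ 1 := (div_le_one ht1').2 ht1
    have h2 : 0 ≤ t / t1 := by positivity
    rcases le_total x t with h3 | h3
    · rw [min_eq_left h3, min_eq_left (le_trans h3 ht1)]
      nlinarith
    · rw [min_eq_right h3]
      have h4 : t / t1 * min x t1 ≤ t / t1 * t1 :=
        mul_le_mul_of_nonneg_left (min_le_right _ _) h2
      have h5 : t / t1 * t1 = t := by field_simp
      linarith)
  linarith

theorem concave_le {n : ℕ} (a : Fin n → ℝ) (hsum : ∑ j, a j ^ 2 = 1) {ta tb s : ℝ}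
    (h1 : 0 ≤ ta) (h2 : 0 ≤ tb) (hs0 : 0 ≤ s) (hs1 : s ≤ 1) :
    (1 - s) * FV a ta 0 + s * FV a tb 0 ≤ FV a ((1 - s) * ta + s * tb) 0 := by
  have h := comb_nonneg a hsum 1 (-(1 - s)) (-s) (t1 := (1 - s) * ta + s * tb)
    (add_nonneg (mul_nonneg (by linarith) h1) (mul_nonneg hs0 h2)) h1 h2 (by
    intro x hx
    have h3 : (1 - s) * min x ta + s * min x tb ≤ min x ((1 - s) * ta + s * tb) := by
      apply le_min
      · have := mul_le_mul_of_nonneg_left (min_le_left x ta) (by linarith : 0 ≤ 1 - s)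
        have := mul_le_mul_of_nonneg_left (min_le_left x tb) hs0
        linarith
      · have := mul_le_mul_of_nonneg_left (min_le_right x ta) (by linarith : 0 ≤ 1 - s)
        have := mul_le_mul_of_nonneg_left (min_le_right x tb) hs0
        linarith
    linarith)
  linarith

end Pool.Agent.H60.Slab
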