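import Pool.Agent.H60.Slab.Volume

set_option autoImplicit false

open MeasureTheory Set

namespace Pool.Agent.H60.Slab

theorem primitive_odd {ψ : ℝ → ℝ} (heven : ∀ x, ψ (-x) = ψ x) (x : ℝ) :
    (∫ s in (0 : ℝ)..(-x), ψ s) = - ∫ s in (0 : ℝ)..x, ψ s := by
  have h := intervalIntegral.integral_comp_neg (a := 0) (b := x) ψ
  simp only [heven, neg_zero] at h
  rw [h, ← intervalIntegral.integral_symm]

theorem psi_le_pos {n : ℕ} (a : Fin (n + 1) → ℝ) (i : Fin (n + 1)) (hb : 0 < a i) {ψ : ℝ → ℝ}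
    (hψ : Continuous ψ) (heven : ∀ x, ψ (-x) = ψ x) {A B : ℝ}
    (hG : ∀ x, 0 ≤ x → ∫ s in (0 : ℝ)..x, ψ s ≤ A * x + B * x ^ 3) :
    ∫ x, ψ (dot x a) ∂(cubeM (n + 1)) ≤ 2 ^ (n + 1) * (A + B * ∑ j, a j ^ 2) := by
  set G : ℝ → ℝ := fun x => ∫ s in (0 : ℝ)..x, ψ s with hGdef
  have hGc : Continuous G := intervalIntegral.continuous_primitive
    (fun a b => hψ.intervalIntegrable a b) 0
  have hodd : ∀ x, G (-x) = - G x := fun x => primitive_odd heven x
  have h0 := integral_dot_succ i hψ a 0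
  simp only [zero_add] at h0
  rw [h0]
  have h1 : ∀ z : ℝ, (∫ u in (-1 : ℝ)..1, ψ (z + u * a i)) =
      (a i)⁻¹ * (G (a i + z) - G (-(a i) + z)) := by
    intro z
    rw [avg_eq_interval ψ hb.ne', hGdef]
    simp only
    rw [intervalIntegral.integral_interval_sub_left (hψ.intervalIntegrable _ _)
      (hψ.intervalIntegrable _ _)]
    congr 2 <;> ring
  simp only [h1]
  rw [integral_const_mul, integral_sub, odd_cube n _ G hGc hodd]
  · have h2 := G_le n (fun j => a (i.succAbove j)) G hGc hodd A B hG (a i) hb.le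
    have h3 : ∑ j, a j ^ 2 = a i ^ 2 + ∑ j, a (i.succAbove j) ^ 2 := Fin.sum_univ_succAbove _ i
    rw [h3]
    have h4 : (a i)⁻¹ * (∫ x, G (a i + dot x fun j => a (i.succAbove j)) ∂cubeM n -
        -∫ x, G (a i + dot x fun j => a (i.succAbove j)) ∂cubeM n) =
        2 * (a i)⁻¹ * ∫ x, G (a i + dot x fun j => a (i.succAbove j)) ∂cubeM n := by ring
    rw [h4]
    calc 2 * (a i)⁻¹ * ∫ x, G (a i + dot x fun j => a (i.succAbove j)) ∂cubeM n
        ≤ 2 * (a i)⁻¹ * (2 ^ n * ((A + B * ∑ j, a (i.succAbove j) ^ 2) * a i + B * a i ^ 3)) := by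
          apply mul_le_mul_of_nonneg_left h2; positivity
      _ = 2 ^ (n + 1) * (A + B * (a i ^ 2 + ∑ j, a (i.succAbove j) ^ 2)) := by
          field_simp
          ring
  · exact integrable_cube_of_continuous (hGc.comp (continuous_const.add (continuous_dot _)))
  · exact integrable_cube_of_continuous (hGc.comp (continuous_const.add (continuous_dot _)))

theorem psi_le {n : ℕ} (a : Fin n → ℝ) {ψ : ℝ → ℝ}
    (hψ : Continuous ψ) (heven : ∀ x, ψ (-x) = ψ x) {A B : ℝ} (h0 : ψ 0 ≤ A)
    (hG : ∀ x, 0 ≤ x → ∫ s in (0 : ℝ)..x, ψ s ≤ A * x + B * x ^ 3) :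
    ∫ x, ψ (dot x a) ∂(cubeM n) ≤ 2 ^ n * (A + B * ∑ j, a j ^ 2) := by
  by_cases hz : ∀ i, a i = 0
  · have e : ∀ x, ψ (dot x a) = ψ 0 := by
      intro x; congr 1; simp [dot, hz]
    simp only [e, hz]
    rw [integral_const]
    have hm : (cubeM n).real univ = 2 ^ n := by
      simp only [cubeM, Measure.real, Measure.pi_univ, Measure.restrict_apply_univ,
        Real.volume_Icc, Finset.prod_const, Finset.card_univ, Fintype.card_fin,
        ENNReal.toReal_pow]
      norm_num
    rw [hm]
    simp only [smul_eq_mul]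
    have : (0 : ℝ) < 2 ^ n := by positivity
    norm_num
    exact h0
  · push Not at hz
    obtain ⟨i, hi⟩ := hz
    cases n with
    | zero => exact i.elim0
    | succ n =>
      rcases lt_or_gt_of_ne hi with h | h
      · have h1 := psi_le_pos (fun j => - a j) i (by simpa using h) hψ heven hG
        have e : ∀ x, dot x (fun j => - a j) = - dot x a := by
          intro x; simp [dot, Finset.sum_neg_distrib]
        simpa only [e, heven, neg_sq] using h1
      · exact psi_le_pos a i h hψ heven hG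

theorem posint {c x : ℝ} (hc : 0 ≤ c) (hx : 0 ≤ x) :
    ∫ s in (0 : ℝ)..x, max (|s| - c) 0 = (max (x - c) 0) ^ 2 / 2 := by
  have hcont : Continuous (fun s : ℝ => max (|s| - c) 0) := by fun_prop
  rcases le_total x c with h | h
  · rw [max_eq_right (by linarith)]
    have : ∫ s in (0 : ℝ)..x, max (|s| - c) 0 = ∫ s in (0 : ℝ)..x, (0 : ℝ) := by
      apply intervalIntegral.integral_congr
      intro s hs
      rw [uIcc_of_le hx] at hs
      simp only
      rw [abs_of_nonneg hs.1]
      exact max_eq_right (by linarith [hs.2])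
    rw [this]; simp
  · rw [max_eq_left (by linarith), ← intervalIntegral.integral_add_adjacent_intervals
      (hcont.intervalIntegrable 0 c) (hcont.intervalIntegrable c x)]
    have e1 : ∫ s in (0 : ℝ)..c, max (|s| - c) 0 = ∫ s in (0 : ℝ)..c, (0 : ℝ) := by
      apply intervalIntegral.integral_congr
      intro s hs
      rw [uIcc_of_le hc] at hs
      simp only
      rw [abs_of_nonneg hs.1]
      exact max_eq_right (by linarith [hs.2])
    have e2 : ∫ s in c..x, max (|s| - c) 0 = ∫ s in c..x, (s - c) := by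
      apply intervalIntegral.integral_congr
      intro s hs
      rw [uIcc_of_le h] at hs
      simp only
      rw [abs_of_nonneg (by linarith [hs.1])]
      exact max_eq_left (by linarith [hs.1])
    rw [e1, e2, intervalIntegral.integral_sub (by simp) (by simp)]
    simp only [intervalIntegral.integral_zero, integral_id, intervalIntegral.integral_const,
      smul_eq_mul]
    ring

theorem clamp_diff_ge {t β : ℝ} (ht : 0 ≤ t) (hβ : 0 ≤ β) (y : ℝ) :
    2 * min t β - max (|y| - |t - β|) 0 ≤ clamp t (y + β) - clamp t (y - β) := by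
  unfold clamp
  rcases abs_cases y with ⟨h1, h1'⟩ | ⟨h1, h1'⟩ <;>
  rcases abs_cases (t - β) with ⟨h2, h2'⟩ | ⟨h2, h2'⟩ <;>
  rw [h1, h2] <;>
  rcases min_cases t β with ⟨h3, h3'⟩ | ⟨h3, h3'⟩ <;> rw [h3] <;>
  rcases le_total (y + β) t with h4 | h4 <;> rcases le_total (y - β) t with h5 | h5 <;>
  rcases le_total (y - β) (-t) with h6 | h6 <;> rcases le_total (y + β) (-t) with h7 | h7 <;>
  simp only [h4, h5, h6, h7, min_eq_left, min_eq_right, max_eq_left, max_eq_right] <;>
  (try rw [max_eq_right (show -t ≤ t by linarith)]) <;>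
  (first
    | (have := le_max_left (y - (t - β)) 0; have := le_max_right (y - (t - β)) 0; linarith)
    | (have := le_max_left (y - -(t - β)) 0; have := le_max_right (y - -(t - β)) 0; linarith)
    | (have := le_max_left (-y - (t - β)) 0; have := le_max_right (-y - (t - β)) 0; linarith)
    | (have := le_max_left (-y - -(t - β)) 0; have := le_max_right (-y - -(t - β)) 0; linarith))

theorem FV_lower_cond {n : ℕ} (a : Fin (n + 1) → ℝ) (i : Fin (n + 1)) (hb : 0 < a i) {t : ℝ}
    (ht : 0 ≤ t) {A B : ℝ} (hA : 0 ≤ A)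
    (hG : ∀ x, 0 ≤ x → (max (x - |t - a i|) 0) ^ 2 / 2 ≤ A * x + B * x ^ 3) :
    2 ^ n * (2 * min t (a i) - (A + B * ∑ j, a (i.succAbove j) ^ 2)) ≤ a i * FV a t 0 := by
  rw [FV_split a i hb ht 0, ← mul_assoc, mul_inv_cancel₀ hb.ne', one_mul]
  have hm : (cubeM n).real univ = 2 ^ n := by
    simp only [cubeM, Measure.real, Measure.pi_univ, Measure.restrict_apply_univ,
      Real.volume_Icc, Finset.prod_const, Finset.card_univ, Fintype.card_fin,
      ENNReal.toReal_pow]
    norm_num
  have h1 : ∫ x', (2 * min t (a i) - max (|dot x' (fun j => a (i.succAbove j))| - |t - a i|) 0)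
      ∂(cubeM n) ≤ ∫ x', (clamp t (0 + dot x' (fun j => a (i.succAbove j)) + a i) -
      clamp t (0 + dot x' (fun j => a (i.succAbove j)) - a i)) ∂(cubeM n) := by
    apply integral_mono
    · apply integrable_cube_of_continuous
      have := continuous_dot (fun j => a (i.succAbove j))
      fun_prop
    · apply integrable_cube_of_continuous
      have := continuous_dot (fun j => a (i.succAbove j))
      have := clamp_continuous t
      fun_prop
    · intro x'
      simp only [zero_add]
      exact clamp_diff_ge ht hb.le _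
  refine le_trans ?_ h1
  rw [integral_sub, integral_const, hm]
  · have h2 := psi_le (fun j => a (i.succAbove j)) (ψ := fun y => max (|y| - |t - a i|) 0)
      (by fun_prop) (by intro x; simp) (A := A) (B := B) (by simpa using hA)
      (by intro x hx; rw [posint (abs_nonneg _) hx]; exact hG x hx)
    simp only [smul_eq_mul]
    linarith
  · exact integrable_const _
  · apply integrable_cube_of_continuous
    have := continuous_dot (fun j => a (i.succAbove j))
    fun_prop

theorem boundA {c x : ℝ} (hc : 0 < c) (hx : 0 ≤ x) :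
    (max (x - c) 0) ^ 2 / 2 ≤ 0 * x + (2 / (27 * c)) * x ^ 3 := by
  rcases le_total x c with h | h
  · rw [max_eq_right (by linarith)]
    have : 0 ≤ (2 / (27 * c)) * x ^ 3 := by positivity
    linarith
  · rw [max_eq_left (by linarith)]
    have h1 : 0 ≤ (x - 3 * c) ^ 2 * (4 * x - 3 * c) := by
      apply mul_nonneg (sq_nonneg _); linarith
    have h2 : (2 / (27 * c)) * x ^ 3 - (x - c) ^ 2 / 2 =
        ((x - 3 * c) ^ 2 * (4 * x - 3 * c)) / (54 * c) := by
      field_simp
      ring
    have h3 : 0 ≤ ((x - 3 * c) ^ 2 * (4 * x - 3 * c)) / (54 * c) := by positivity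
    linarith

theorem boundB {c r x : ℝ} (hc : 0 ≤ c) (hr : 0 < r) (hcr : 3 * c ≤ r) (hx : 0 ≤ x) :
    (max (x - c) 0) ^ 2 / 2 ≤
      ((r - c) * (r - 3 * c) / (4 * r)) * x + ((r ^ 2 - c ^ 2) / (4 * r ^ 3)) * x ^ 3 := by
  have hA : 0 ≤ (r - c) * (r - 3 * c) / (4 * r) := by
    apply div_nonneg (mul_nonneg (by linarith) (by linarith)) (by positivity)
  have hB : 0 ≤ (r ^ 2 - c ^ 2) / (4 * r ^ 3) := by
    apply div_nonneg _ (by positivity)
    nlinarith
  rcases le_total x c with h | h
  · rw [max_eq_right (by linarith)]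
    have : 0 ≤ ((r - c) * (r - 3 * c) / (4 * r)) * x := by positivity
    have : 0 ≤ ((r ^ 2 - c ^ 2) / (4 * r ^ 3)) * x ^ 3 := by positivity
    linarith
  · rw [max_eq_left (by linarith)]
    have h2 : ((r - c) * (r - 3 * c) / (4 * r)) * x + ((r ^ 2 - c ^ 2) / (4 * r ^ 3)) * x ^ 3 -
        (x - c) ^ 2 / 2 =
        ((x - r) ^ 2 * ((r ^ 2 - c ^ 2) * x - 2 * r * c ^ 2)) / (4 * r ^ 3) := by
      field_simp
      ring
    have h3 : 0 ≤ ((r ^ 2 - c ^ 2) * x - 2 * r * c ^ 2) := by
      have h4 : (r ^ 2 - c ^ 2) * c ≤ (r ^ 2 - c ^ 2) * x := by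
        apply mul_le_mul_of_nonneg_left h; nlinarith
      have h5 : 0 ≤ c * (r ^ 2 - c ^ 2 - 2 * r * c) := by
        apply mul_nonneg hc; nlinarith
      nlinarith
    have h4 : 0 ≤ ((x - r) ^ 2 * ((r ^ 2 - c ^ 2) * x - 2 * r * c ^ 2)) / (4 * r ^ 3) := by
      positivity
    linarith

end Pool.Agent.H60.Slab
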