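import Pool.Agent.H60.Slab.Sinc

set_option autoImplicit false

open MeasureTheory Set Complex

namespace Pool.Agent.H60.Slab

/-- Gaussian characteristic function. -/
noncomputable def qq (ξ : ℝ) : ℝ := Real.exp (-(ξ ^ 2 / 6))

theorem qq_continuous : Continuous qq := by unfold qq; fun_prop

theorem qq_pos (ξ : ℝ) : 0 < qq ξ := Real.exp_pos _

theorem qq_integrable : Integrable qq := by
  have h := integrable_exp_neg_mul_sq (b := 1 / 6) (by norm_num)
  refine h.congr (Filter.Eventually.of_forall fun x => ?_)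
  unfold qq
  simp only
  congr 1
  ring

theorem gauss_cos (c : ℝ) :
    ∫ ξ in Ioi (0 : ℝ), qq ξ * Real.cos (c * ξ) =
      Real.sqrt (6 * Real.pi) / 2 * Real.exp (-(3 * c ^ 2 / 2)) := by
  have hpi := Real.pi_pos
  have h := fourierIntegral_gaussian (b := ((1 / 6 : ℝ) : ℂ)) (by norm_num) (c : ℂ)
  have e1 : (fun x : ℝ => cexp (I * c * x) * cexp (-((1 / 6 : ℝ) : ℂ) * x ^ 2)) =
      fun x : ℝ => ((qq x * Real.cos (c * x) : ℝ) : ℂ) + ((qq x * Real.sin (c * x) : ℝ) : ℂ) * I := by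
    ext x
    have h1 : cexp (-((1 / 6 : ℝ) : ℂ) * x ^ 2) = ((qq x : ℝ) : ℂ) := by
      unfold qq
      rw [ofReal_exp]
      congr 1
      push_cast
      ring
    have h2 : cexp (I * c * x) = Complex.cos (c * x) + Complex.sin (c * x) * I := by
      rw [← Complex.exp_mul_I]
      congr 1
      ring
    rw [h1, h2]
    push_cast
    ring
  have hcos : Integrable (fun x : ℝ => qq x * Real.cos (c * x)) := by
    refine qq_integrable.mono (by
      exact (qq_continuous.mul (by fun_prop)).aestronglyMeasurable) ?_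
    refine Filter.Eventually.of_forall fun x => ?_
    rw [norm_mul]
    have := Real.abs_cos_le_one (c * x)
    rw [Real.norm_eq_abs (Real.cos _)]
    nlinarith [norm_nonneg (qq x)]
  have hsin : Integrable (fun x : ℝ => qq x * Real.sin (c * x)) := by
    refine qq_integrable.mono (by
      exact (qq_continuous.mul (by fun_prop)).aestronglyMeasurable) ?_
    refine Filter.Eventually.of_forall fun x => ?_
    rw [norm_mul]
    have := Real.abs_sin_le_one (c * x)
    rw [Real.norm_eq_abs (Real.sin _)]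
    nlinarith [norm_nonneg (qq x)]
  have hcos' : Integrable (fun x : ℝ => ((qq x * Real.cos (c * x) : ℝ) : ℂ)) := hcos.ofReal
  have hsin' : Integrable (fun x : ℝ => ((qq x * Real.sin (c * x) : ℝ) : ℂ) * I) :=
    Integrable.mul_const (hsin.ofReal) I
  rw [e1, integral_add hcos' hsin', integral_complex_ofReal,
    integral_mul_const, integral_complex_ofReal] at h
  have e2 : ((Real.pi : ℂ) / ((1 / 6 : ℝ) : ℂ)) ^ (1 / 2 : ℂ) *
      cexp (-(c : ℂ) ^ 2 / (4 * ((1 / 6 : ℝ) : ℂ))) =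
      ((Real.sqrt (6 * Real.pi) * Real.exp (-(3 * c ^ 2 / 2)) : ℝ) : ℂ) := by
    have h4 : ((Real.pi : ℂ) / ((1 / 6 : ℝ) : ℂ)) = ((6 * Real.pi : ℝ) : ℂ) := by
      push_cast; ring
    have h6 : (((6 * Real.pi : ℝ) : ℂ)) ^ (1 / 2 : ℂ) = ((Real.sqrt (6 * Real.pi) : ℝ) : ℂ) := by
      rw [Real.sqrt_eq_rpow, ofReal_cpow (by positivity)]
      congr 1
      push_cast
      rfl
    have h7 : cexp (-(c : ℂ) ^ 2 / (4 * ((1 / 6 : ℝ) : ℂ))) =
        ((Real.exp (-(3 * c ^ 2 / 2)) : ℝ) : ℂ) := by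
      rw [ofReal_exp]
      congr 1
      push_cast
      ring
    rw [h4, h6, h7, ofReal_mul]
  rw [e2] at h
  have h3 := congrArg Complex.re h
  rw [add_re, ofReal_re, ofReal_re, re_ofReal_mul, I_re, mul_zero, add_zero] at h3
  have h5 : ∫ x, qq x * Real.cos (c * x) = 2 * ∫ x in Ioi (0 : ℝ), qq x * Real.cos (c * x) := by
    rw [← integral_comp_abs (f := fun x => qq x * Real.cos (c * x))]
    congr 1
    ext x
    rcases abs_cases x with ⟨h, _⟩ | ⟨h, _⟩ <;> rw [h]
    unfold qq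
    rw [mul_neg, Real.cos_neg, neg_sq]
  rw [h5] at h3
  linarith

theorem sinc_int (c : ℝ) : ∫ u in (0 : ℝ)..1, Real.cos (c * u) = Real.sinc c := by
  by_cases h : c = 0
  · subst h; simp
  · have h1 := intervalIntegral.integral_comp_mul_left (a := 0) (b := 1) (fun x => Real.cos x) h
    rw [h1, integral_cos, Real.sinc_of_ne_zero h]
    simp
    ring

theorem qq_sinc_integrable (t : ℝ) : Integrable (fun ξ => qq ξ * Real.sinc (t * ξ)) := by
  refine qq_integrable.mono (by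
    exact (qq_continuous.mul (Real.continuous_sinc.comp (by fun_prop))).aestronglyMeasurable) ?_
  refine Filter.Eventually.of_forall fun x => ?_
  rw [norm_mul]
  have := Real.abs_sinc_le_one (t * x)
  rw [Real.norm_eq_abs (Real.sinc _)]
  nlinarith [norm_nonneg (qq x)]

theorem gauss_sinc (t : ℝ) :
    ∫ ξ in Ioi (0 : ℝ), qq ξ * Real.sinc (t * ξ) =
      Real.sqrt (6 * Real.pi) / 2 * ∫ u in (0 : ℝ)..1, Real.exp (-(3 * (t * u) ^ 2 / 2)) := by
  have e1 : ∀ ξ : ℝ, qq ξ * Real.sinc (t * ξ) = ∫ u in Ioc (0 : ℝ) 1, qq ξ * Real.cos ((t * u) * ξ) := by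
    intro ξ
    rw [← sinc_int, ← intervalIntegral.integral_const_mul,
      intervalIntegral.integral_of_le zero_le_one]
    congr 1
    ext u
    congr 2
    ring
  simp only [e1]
  rw [integral_integral_swap]
  · simp only [gauss_cos]
    rw [integral_const_mul, intervalIntegral.integral_of_le zero_le_one]
  · have h1 : Integrable (fun p : ℝ × ℝ => qq p.1 * (1 : ℝ))
        ((volume.restrict (Ioi (0 : ℝ))).prod (volume.restrict (Ioc (0 : ℝ) 1))) :=
      Integrable.mul_prod (f := qq) (g := fun _ => (1 : ℝ)) qq_integrable.integrableOn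
        (integrable_const _)
    refine h1.mono ?_ ?_
    · have hc : Continuous (Function.uncurry fun ξ u : ℝ => qq ξ * Real.cos (t * u * ξ)) := by
        have := qq_continuous
        fun_prop
      exact hc.aestronglyMeasurable
    · refine Filter.Eventually.of_forall fun p => ?_
      simp only [Function.uncurry]
      rw [norm_mul, norm_mul]
      have := Real.abs_cos_le_one (t * p.2 * p.1)
      rw [Real.norm_eq_abs (Real.cos _), norm_one]
      nlinarith [norm_nonneg (qq p.1)]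

theorem poly_int (c : ℝ) :
    1 - c / 3 + c ^ 2 / 10 - c ^ 3 / 42 + c ^ 4 / 216 - c ^ 5 / 1320 =
    ∫ u in (0 : ℝ)..1, (1 - (c * u ^ 2) + (c * u ^ 2) ^ 2 / 2 - (c * u ^ 2) ^ 3 / 6 +
      (c * u ^ 2) ^ 4 / 24 - (c * u ^ 2) ^ 5 / 120) := by
  have h : ∀ u : ℝ, HasDerivAt (fun u : ℝ => u - c * u ^ 3 / 3 + c ^ 2 * u ^ 5 / 10 -
      c ^ 3 * u ^ 7 / 42 + c ^ 4 * u ^ 9 / 216 - c ^ 5 * u ^ 11 / 1320)
      (1 - (c * u ^ 2) + (c * u ^ 2) ^ 2 / 2 - (c * u ^ 2) ^ 3 / 6 +
      (c * u ^ 2) ^ 4 / 24 - (c * u ^ 2) ^ 5 / 120) u := by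
    intro u
    have h1 := ((((((hasDerivAt_id u).sub (((hasDerivAt_pow 3 u).const_mul c).div_const 3)).add
      (((hasDerivAt_pow 5 u).const_mul (c ^ 2)).div_const 10)).sub
      (((hasDerivAt_pow 7 u).const_mul (c ^ 3)).div_const 42)).add
      (((hasDerivAt_pow 9 u).const_mul (c ^ 4)).div_const 216)).sub
      (((hasDerivAt_pow 11 u).const_mul (c ^ 5)).div_const 1320))
    exact h1.congr_deriv (by norm_num; ring)
  rw [intervalIntegral.integral_eq_sub_of_hasDerivAt (fun u _ => h u)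
    (Continuous.intervalIntegrable (by fun_prop) _ _)]
  norm_num

theorem gauss_lower {t : ℝ} :
    1 - (3 * t ^ 2 / 2) / 3 + (3 * t ^ 2 / 2) ^ 2 / 10 - (3 * t ^ 2 / 2) ^ 3 / 42 +
      (3 * t ^ 2 / 2) ^ 4 / 216 - (3 * t ^ 2 / 2) ^ 5 / 1320 ≤
    ∫ u in (0 : ℝ)..1, Real.exp (-(3 * (t * u) ^ 2 / 2)) := by
  rw [poly_int]
  apply intervalIntegral.integral_mono_on zero_le_one
  · exact Continuous.intervalIntegrable (by fun_prop) _ _
  · exact Continuous.intervalIntegrable (by fun_prop) _ _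
  · intro u _
    have h := exp_lb5 (3 * (t * u) ^ 2 / 2) (by positivity)
    have e : 3 * t ^ 2 / 2 * u ^ 2 = 3 * (t * u) ^ 2 / 2 := by ring
    rw [e]
    exact h

theorem int_cubic_gauss (X : ℝ) :
    ∫ ξ in (0 : ℝ)..X, ξ ^ 3 * qq ξ = 18 - 3 * (X ^ 2 + 6) * qq X := by
  have h : ∀ ξ : ℝ, HasDerivAt (fun ξ : ℝ => -(3 * (ξ ^ 2 + 6) * qq ξ)) (ξ ^ 3 * qq ξ) ξ := by
    intro ξ
    have h1 : HasDerivAt qq (Real.exp (-(ξ ^ 2 / 6)) * (-(2 * ξ / 6))) ξ := by
      unfold qq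
      have h2 := (((hasDerivAt_pow 2 ξ).div_const 6).neg).exp
      exact h2.congr_deriv (by norm_num)
    have h3 := ((((hasDerivAt_pow 2 ξ).add_const 6).const_mul 3).mul h1).neg
    refine h3.congr_deriv ?_
    unfold qq
    norm_num
    ring
  rw [intervalIntegral.integral_eq_sub_of_hasDerivAt (fun u _ => h u)
    (Continuous.intervalIntegrable (by have := qq_continuous; fun_prop) _ _)]
  unfold qq
  norm_num
  ring

theorem tail_int {c : ℝ} (hc : 0 < c) :
    IntegrableOn (fun ξ : ℝ => 16 * (ξ ^ 5)⁻¹ + ξ * qq ξ / 36) (Ioi c) ∧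
    ∫ ξ in Ioi c, (16 * (ξ ^ 5)⁻¹ + ξ * qq ξ / 36) = 4 * (c ^ 4)⁻¹ + qq c / 12 := by
  have hder : ∀ ξ ∈ Ici c, HasDerivAt (fun ξ : ℝ => -(4 * (ξ ^ 4)⁻¹) - qq ξ / 12)
      (16 * (ξ ^ 5)⁻¹ + ξ * qq ξ / 36) ξ := by
    intro ξ hξ
    have hξ0 : 0 < ξ := lt_of_lt_of_le hc hξ
    have h1 : HasDerivAt qq (Real.exp (-(ξ ^ 2 / 6)) * (-(2 * ξ / 6))) ξ := by
      unfold qq
      have h2 := (((hasDerivAt_pow 2 ξ).div_const 6).neg).exp
      exact h2.congr_deriv (by norm_num)
    have h3 := ((((hasDerivAt_pow 4 ξ).inv (by positivity)).const_mul 4).neg).sub (h1.div_const 12)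
    refine h3.congr_deriv ?_
    unfold qq
    norm_num
    field_simp
    ring
  have hpos : ∀ ξ ∈ Ioi c, 0 ≤ 16 * (ξ ^ 5)⁻¹ + ξ * qq ξ / 36 := by
    intro ξ hξ
    have hξ0 : 0 < ξ := lt_trans hc hξ
    have := qq_pos ξ
    positivity
  have hlim : Filter.Tendsto (fun ξ : ℝ => -(4 * (ξ ^ 4)⁻¹) - qq ξ / 12) Filter.atTop (nhds 0) := by
    have h1 : Filter.Tendsto (fun ξ : ℝ => (ξ ^ 4)⁻¹) Filter.atTop (nhds 0) :=
      (Filter.tendsto_pow_atTop (by norm_num)).inv_tendsto_atTop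
    have h2 : Filter.Tendsto qq Filter.atTop (nhds 0) := by
      unfold qq
      apply Real.tendsto_exp_atBot.comp
      apply Filter.tendsto_neg_atTop_atBot.comp
      exact (Filter.tendsto_pow_atTop (by norm_num)).atTop_div_const (by norm_num)
    have h3 := ((h1.const_mul 4).neg).sub (h2.div_const 12)
    simpa using h3
  constructor
  · exact integrableOn_Ioi_deriv_of_nonneg' hder hpos hlim
  · rw [integral_Ioi_of_hasDerivAt_of_nonneg' hder hpos hlim]
    ring

end Pool.Agent.H60.Slab
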