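import Pool.Agent.H60.Slab.Cond

set_option autoImplicit false

open MeasureTheory Set

namespace Pool.Agent.H60.Slab

theorem sqrt2_lb : (1.41421 : ℝ) < Real.sqrt 2 := by
  rw [Real.lt_sqrt (by norm_num)]; norm_num

theorem sqrt2_ub : Real.sqrt 2 < (1.41422 : ℝ) := by
  rw [Real.sqrt_lt' (by norm_num)]; norm_num

theorem sqrt2_sq : Real.sqrt 2 ^ 2 = 2 := Real.sq_sqrt (by norm_num)

/-- the volume of the slab of `f_2`, normalised. -/
noncomputable def vv (t : ℝ) : ℝ := Real.sqrt 2 * t - t ^ 2 / 2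

theorem regionII_half {t : ℝ} (h1 : 0.8284 ≤ t) (h2 : t ≤ 0.85) :
    0 ≤ (27 / 2) * (1 / 2) * (t - 1 / 2) * (Real.sqrt 2 - t) ^ 2 - (1 - (1 / 2) ^ 2) := by
  have hs := sqrt2_lb
  have h3 : (1.41421 - t) ^ 2 ≤ (Real.sqrt 2 - t) ^ 2 := by
    apply pow_le_pow_left₀ <;> linarith
  have h4 : (t - 1 / 2) * (1.41421 - t) ^ 2 ≤ (t - 1 / 2) * (Real.sqrt 2 - t) ^ 2 :=
    mul_le_mul_of_nonneg_left h3 (by linarith)
  have h5 : 0 ≤ 9 * ((t - 1 / 2) * (1.41421 - t) ^ 2) - 1 := by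
    nlinarith [mul_nonneg (sub_nonneg.2 h1) (sub_nonneg.2 h2),
      mul_nonneg (mul_nonneg (sub_nonneg.2 h1) (sub_nonneg.2 h2)) (sub_nonneg.2 h2)]
  nlinarith

theorem regionII_58 {t : ℝ} (h1 : 0.8284 ≤ t) (h2 : t ≤ 0.85) :
    0 ≤ (27 / 2) * 0.58 * (t - 0.58) * (Real.sqrt 2 - t) ^ 2 - (1 - 0.58 ^ 2) := by
  have hs := sqrt2_lb
  have h3 : (1.41421 - t) ^ 2 ≤ (Real.sqrt 2 - t) ^ 2 := by
    apply pow_le_pow_left₀ <;> linarith
  have h4 : (t - 0.58) * (1.41421 - t) ^ 2 ≤ (t - 0.58) * (Real.sqrt 2 - t) ^ 2 :=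
    mul_le_mul_of_nonneg_left h3 (by linarith)
  have h5 : 0 ≤ 7.83 * ((t - 0.58) * (1.41421 - t) ^ 2) - 0.6636 := by
    nlinarith [mul_nonneg (sub_nonneg.2 h1) (sub_nonneg.2 h2),
      mul_nonneg (mul_nonneg (sub_nonneg.2 h1) (sub_nonneg.2 h2)) (sub_nonneg.2 h2)]
  nlinarith

theorem regionII_ineq {t β : ℝ} (h1 : 0.8284 ≤ t) (h2 : t ≤ 0.85) (h3 : 1 / 2 ≤ β)
    (h4 : β ≤ 0.58) :
    1 - β ^ 2 ≤ 27 * (t - β) * β * (1 - vv t) := by
  have e : 1 - vv t = (Real.sqrt 2 - t) ^ 2 / 2 := by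
    unfold vv
    nlinarith [sqrt2_sq]
  rw [e]
  set u := Real.sqrt 2 - t with hu
  have hu1 : 0.564 ≤ u := by linarith [sqrt2_lb]
  have ha := regionII_half h1 h2
  have hb := regionII_58 h1 h2
  rw [← hu] at ha hb
  have hu2 : 0.318 ≤ u ^ 2 := by nlinarith
  have hp : 0 ≤ (β - 1 / 2) * (0.58 - β) := mul_nonneg (by linarith) (by linarith)
  have hq : 0 ≤ (13.5 * u ^ 2 - 1) * ((β - 1 / 2) * (0.58 - β)) :=
    mul_nonneg (by linarith) hp
  have k1 := mul_nonneg (sub_nonneg.2 h4) ha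
  have k2 := mul_nonneg (sub_nonneg.2 h3) hb
  have key : 0.08 * (27 * (t - β) * β * (u ^ 2 / 2) - (1 - β ^ 2)) =
    (0.58 - β) * ((27 / 2) * (1 / 2) * (t - 1 / 2) * u ^ 2 - (1 - (1 / 2) ^ 2)) +
    (β - 1 / 2) * ((27 / 2) * 0.58 * (t - 0.58) * u ^ 2 - (1 - 0.58 ^ 2)) +
    0.08 * ((13.5 * u ^ 2 - 1) * ((β - 1 / 2) * (0.58 - β))) := by
    ring
  linarith

theorem t1_bounds {t : ℝ} (ht : 2 * (Real.sqrt 2 - 1) ≤ t) : 0.8284 ≤ t := by
  linarith [sqrt2_lb]

theorem factor_id (t r β : ℝ) (h : r ^ 2 + β ^ 2 = 1) :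
    1 + t ^ 2 - 2 * r * β - 2 * t * (r + β) + 4 * r * β * vv t =
      ((r + β) - Real.sqrt 2) * ((2 * Real.sqrt 2 * t - t ^ 2 - 1) * (r + β) -
        Real.sqrt 2 * (t ^ 2 - Real.sqrt 2 * t + 1)) := by
  have hq : 2 * r * β = (r + β) ^ 2 - 1 := by nlinarith
  have hq2 : 4 * r * β = 2 * ((r + β) ^ 2 - 1) := by nlinarith
  rw [hq, hq2]
  unfold vv
  have h2 := sqrt2_sq
  set s := Real.sqrt 2
  set q := r + β
  linear_combination (-(t ^ 2) + s * t - 1 + t * q) * (h2)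

theorem regionIII_c {t β : ℝ} (h1 : 0.8284 ≤ t) (h2 : t ≤ 0.85) (h3 : 0.58 ≤ β)
    (h4 : β ≤ 0.94) : 9 * (t - β) ^ 2 ≤ 1 - β ^ 2 := by
  nlinarith [mul_nonneg (sub_nonneg.2 h1) (sub_nonneg.2 h2),
    mul_nonneg (sub_nonneg.2 h3) (sub_nonneg.2 h4),
    mul_nonneg (sub_nonneg.2 h1) (sub_nonneg.2 h3),
    mul_nonneg (sub_nonneg.2 h1) (sub_nonneg.2 h4),
    mul_nonneg (sub_nonneg.2 h2) (sub_nonneg.2 h3),
    mul_nonneg (sub_nonneg.2 h2) (sub_nonneg.2 h4)]

theorem regionIII_E {t β r : ℝ} (h1 : 0.8284 ≤ t) (h2 : t ≤ 0.85) (h3 : 0.58 ≤ β)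
    (h4 : β ≤ 0.94) (hr : 0 < r) (hrb : r ^ 2 + β ^ 2 = 1) :
    1 + t ^ 2 - 2 * r * β - 2 * t * (r + β) + 4 * r * β * vv t ≤ 0 := by
  rw [factor_id t r β hrb]
  have hs1 := sqrt2_lb
  have hs2 := sqrt2_ub
  have hss := sqrt2_sq
  have hrb1 : 0.316 ≤ r * β := by
    have h5 : 0.1 ≤ (r * β) ^ 2 := by
      have h6 : 0 ≤ (β ^ 2 - 0.3364) * (0.8836 - β ^ 2) :=
        mul_nonneg (by nlinarith) (by nlinarith)
      have h7 : r ^ 2 = 1 - β ^ 2 := by linarith
      rw [mul_pow, h7]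
      nlinarith
    have h8 : 0 ≤ r * β := by positivity
    nlinarith
  have hq : 1.27 ≤ r + β := by nlinarith
  have hq2 : r + β ≤ Real.sqrt 2 := by
    apply Real.le_sqrt_of_sq_le
    nlinarith [sq_nonneg (r - β)]
  have k1 : 0.656 ≤ 2 * Real.sqrt 2 * t - t ^ 2 - 1 := by
    nlinarith [mul_nonneg (sub_nonneg.2 h1) (sub_nonneg.2 h2)]
  have k2 : Real.sqrt 2 * (t ^ 2 - Real.sqrt 2 * t + 1) ≤ 0.8 := by
    have k3 : t ^ 2 - Real.sqrt 2 * t + 1 ≤ 0.53 := by
      nlinarith [mul_nonneg (sub_nonneg.2 h1) (sub_nonneg.2 h2)]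
    nlinarith
  have k4 : 0 ≤ (2 * Real.sqrt 2 * t - t ^ 2 - 1) * (r + β) -
      Real.sqrt 2 * (t ^ 2 - Real.sqrt 2 * t + 1) := by nlinarith
  exact mul_nonpos_of_nonpos_of_nonneg (by linarith) k4

/-- The case where one coordinate is at least one half. -/
theorem case_large {n : ℕ} (a : Fin (n + 1) → ℝ) (hsum : ∑ j, a j ^ 2 = 1) (i : Fin (n + 1))
    (hi : 1 / 2 ≤ a i) {t : ℝ} (ht1 : 2 * (Real.sqrt 2 - 1) ≤ t) (ht2 : t ≤ 0.85) :
    2 ^ (n + 1) * vv t ≤ FV a t 0 := by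
  have ht0 := t1_bounds ht1
  have hb : 0 < a i := by linarith
  have hrest : ∑ j, a (i.succAbove j) ^ 2 = 1 - a i ^ 2 := by
    have h3 : ∑ j, a j ^ 2 = a i ^ 2 + ∑ j, a (i.succAbove j) ^ 2 := Fin.sum_univ_succAbove _ i
    linarith
  have hrest0 : 0 ≤ 1 - a i ^ 2 := by
    rw [← hrest]; exact Finset.sum_nonneg fun j _ => sq_nonneg _
  have hb1 : a i ≤ 1 := by nlinarith
  have hpow : (0 : ℝ) < 2 ^ n := by positivity
  -- reduction
  have red : ∀ A B : ℝ, 0 ≤ A →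
      (∀ x, 0 ≤ x → (max (x - |t - a i|) 0) ^ 2 / 2 ≤ A * x + B * x ^ 3) →
      2 * a i * vv t ≤ 2 * min t (a i) - (A + B * (1 - a i ^ 2)) →
      2 ^ (n + 1) * vv t ≤ FV a t 0 := by
    intro A B hA hG h
    have h1 := FV_lower_cond a i hb (by linarith : (0 : ℝ) ≤ t) hA hG
    rw [hrest] at h1
    have h2 : 2 ^ n * (2 * a i * vv t) ≤ 2 ^ n * (2 * min t (a i) - (A + B * (1 - a i ^ 2))) :=
      mul_le_mul_of_nonneg_left h hpow.le
    have h3 : a i * (2 ^ (n + 1) * vv t) ≤ a i * FV a t 0 := by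
      calc a i * (2 ^ (n + 1) * vv t) = 2 ^ n * (2 * a i * vv t) := by ring
        _ ≤ _ := h2
        _ ≤ _ := h1
    exact le_of_mul_le_mul_left h3 hb
  set β := a i with hβ
  rcases le_total β 0.58 with hc1 | hc1
  · -- region II
    have hc : 0 < t - β := by linarith
    have habs : |t - β| = t - β := abs_of_pos hc
    apply red 0 (2 / (27 * (t - β))) le_rfl
    · intro x hx
      rw [habs]
      exact boundA hc hx
    · rw [min_eq_right (by linarith)]
      have h5 := regionII_ineq ht0 ht2 hi hc1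
      have h6 : (2 / (27 * (t - β))) * (1 - β ^ 2) ≤ 2 * β * (1 - vv t) := by
        rw [div_mul_eq_mul_div, div_le_iff₀ (by positivity)]
        nlinarith
      linarith
  · rcases le_total β 0.94 with hc2 | hc2
    · -- region III
      have hr2 : 0 < 1 - β ^ 2 := by nlinarith
      set r := Real.sqrt (1 - β ^ 2) with hr
      have hrpos : 0 < r := Real.sqrt_pos.2 hr2
      have hrsq : r ^ 2 = 1 - β ^ 2 := Real.sq_sqrt hr2.le
      have hcr : 3 * |t - β| ≤ r := by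
        have h9 := regionIII_c ht0 ht2 hc1 hc2
        apply abs_le_of_sq_le_sq' _ hrpos.le |>.2
        rw [hrsq, mul_pow, sq_abs]
        linarith
      have hE := regionIII_E ht0 ht2 hc1 hc2 hrpos (by linarith)
      apply red ((r - |t - β|) * (r - 3 * |t - β|) / (4 * r))
        ((r ^ 2 - |t - β| ^ 2) / (4 * r ^ 3))
      · apply div_nonneg (mul_nonneg _ _) (by positivity) <;>
          linarith [abs_nonneg (t - β)]
      · intro x hx
        exact boundB (abs_nonneg _) hrpos hcr hx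
      · rw [← hrsq]
        have h7 : (r - |t - β|) * (r - 3 * |t - β|) / (4 * r) +
            (r ^ 2 - |t - β| ^ 2) / (4 * r ^ 3) * r ^ 2 = (r - |t - β|) ^ 2 / (2 * r) := by
          field_simp
          ring
        rw [h7]
        have h8 : (r - |t - β|) ^ 2 / (2 * r) ≤ 2 * min t β - 2 * β * vv t := by
          rw [div_le_iff₀ (by positivity)]
          rcases le_total t β with h | h
          · rw [min_eq_left h, abs_of_nonpos (by linarith)]
            nlinarith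
          · rw [min_eq_right h, abs_of_nonneg (by linarith)]
            nlinarith
        linarith
    · -- region IV
      have hc : 0 < β - t := by linarith
      have habs : |t - β| = β - t := by rw [abs_sub_comm]; exact abs_of_pos hc
      apply red 0 (2 / (27 * (β - t))) le_rfl
      · intro x hx
        rw [habs]
        exact boundA hc hx
      · rw [min_eq_left (by linarith)]
        have hv1 : vv t ≤ t := by
          unfold vv
          nlinarith
        have hv2 : 0.828 ≤ vv t := by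
          unfold vv
          nlinarith [sqrt2_lb]
        have h5 : 1 + β ≤ 27 * (β - t) * vv t := by
          have : 27 * (β - 0.85) * 0.828 ≤ 27 * (β - t) * vv t := by
            apply mul_le_mul _ hv2 (by norm_num) (by linarith)
            linarith
          nlinarith
        have h6 : (2 / (27 * (β - t))) * (1 - β ^ 2) ≤ 2 * t - 2 * β * vv t := by
          rw [div_mul_eq_mul_div, div_le_iff₀ (by positivity)]
          have h7 : (1 - β) * (1 + β) ≤ (1 - β) * (27 * (β - t) * vv t) :=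
            mul_le_mul_of_nonneg_left h5 (by linarith)
          have h8 : 0 ≤ (β - t) * (t - vv t) := mul_nonneg hc.le (by linarith)
          nlinarith
        linarith

end Pool.Agent.H60.Slab
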