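import Pool.Agent.H60.Slab.Small

set_option autoImplicit false

open MeasureTheory Set

namespace Pool.Agent.H60.Slab

theorem qq_two_pi : qq (2 * Real.pi) ≤ 0.0015 := by
  have hpi := Real.pi_gt_d4
  have h1 : qq (2 * Real.pi) ≤ Real.exp (-6.57) := by
    unfold qq
    apply Real.exp_le_exp.2
    nlinarith
  have h2 : Real.exp (-6.57) = Real.exp (-0.82125) ^ 8 := by
    rw [← Real.exp_nat_mul]; norm_num
  have h3 : Real.exp (-0.82125) ≤ 0.4427 := by
    refine le_trans (exp_ub4 0.82125 (by norm_num)) ?_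
    norm_num
  have h4 : Real.exp (-0.82125) ^ 8 ≤ 0.4427 ^ 8 :=
    pow_le_pow_left₀ (Real.exp_pos _).le h3 8
  refine le_trans h1 ?_
  rw [h2]
  refine le_trans h4 ?_
  norm_num

theorem tail_num : 4 * ((2 * Real.pi) ^ 4)⁻¹ + qq (2 * Real.pi) / 12 ≤ 0.0027 := by
  have hpi := Real.pi_gt_d4
  have h1 := qq_two_pi
  have h2 : (6.283 : ℝ) ^ 4 ≤ (2 * Real.pi) ^ 4 := by
    apply pow_le_pow_left₀ (by norm_num); linarith
  have h3 : ((2 * Real.pi) ^ 4)⁻¹ ≤ ((6.283 : ℝ) ^ 4)⁻¹ := inv_anti₀ (by norm_num) h2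
  have h4 : ((6.283 : ℝ) ^ 4)⁻¹ ≤ 0.000642 := by norm_num
  linarith

theorem LL_a : LL 3.7942 ≤ 0.0256 := by
  have h1 : (0.0906 : ℝ) ≤ qq 3.7942 := by
    have h2 : Real.exp (-2.4) ≤ qq 3.7942 := by
      unfold qq
      apply Real.exp_le_exp.2
      norm_num
    have h3 : Real.exp (-2.4) = Real.exp (-0.6) ^ 4 := by
      rw [← Real.exp_nat_mul]; norm_num
    have h4 : (0.5487 : ℝ) ≤ Real.exp (-0.6) := by
      refine le_trans ?_ (exp_lb5 0.6 (by norm_num))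
      norm_num
    have h5 : (0.5487 : ℝ) ^ 4 ≤ Real.exp (-0.6) ^ 4 := pow_le_pow_left₀ (by norm_num) h4 4
    refine le_trans ?_ h2
    rw [h3]
    refine le_trans ?_ h5
    norm_num
  have h6 := tail_num
  unfold LL
  nlinarith

theorem LL_b : LL 3.696 ≤ 0.0247 := by
  have h1 : (0.1024 : ℝ) ≤ qq 3.696 := by
    have h2 : Real.exp (-2.278) ≤ qq 3.696 := by
      unfold qq
      apply Real.exp_le_exp.2
      norm_num
    have h3 : Real.exp (-2.278) = Real.exp (-0.5695) ^ 4 := by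
      rw [← Real.exp_nat_mul]; norm_num
    have h4 : (0.5657 : ℝ) ≤ Real.exp (-0.5695) := by
      refine le_trans ?_ (exp_lb5 0.5695 (by norm_num))
      norm_num
    have h5 : (0.5657 : ℝ) ^ 4 ≤ Real.exp (-0.5695) ^ 4 := pow_le_pow_left₀ (by norm_num) h4 4
    refine le_trans ?_ h2
    rw [h3]
    refine le_trans ?_ h5
    norm_num
  have h6 := tail_num
  unfold LL
  nlinarith

theorem sqrt_six_pi : (4.3416 : ℝ) ≤ Real.sqrt (6 * Real.pi) := by
  apply Real.le_sqrt_of_sq_le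
  have := Real.pi_gt_d6
  norm_num at this ⊢
  linarith

theorem small_a {n : ℕ} (a : Fin n → ℝ) (hsum : ∑ j, a j ^ 2 = 1) (ha : ∀ i, |a i| ≤ 1 / 2) :
    2 ^ n * (vv 0.828 + 0.003) ≤ FV a 0.828 0 := by
  have hpi1 := Real.pi_gt_d4
  have hpi2 := Real.pi_lt_d4
  have hpi3 := Real.pi_lt_d6
  apply FV_lower_small a hsum ha (t := 0.828) (X := 3.7942) (by norm_num) (by norm_num)
  · rw [div_le_iff₀ (by norm_num)]; norm_num at *; linarith
  · norm_num
  · have h1 := LL_a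
    have h2 := sqrt_six_pi
    have h3 : vv 0.828 + 0.003 ≤ 0.83119 := by
      unfold vv
      have := sqrt2_ub
      norm_num at *
      linarith
    have h4 : Real.pi * (vv 0.828 + 0.003) ≤ 2.6113 := by
      have h5 : 0 ≤ vv 0.828 + 0.003 := by
        unfold vv
        have := sqrt2_lb
        norm_num at *
        linarith
      have : Real.pi * (vv 0.828 + 0.003) ≤ 3.1416 * 0.83119 :=
        mul_le_mul hpi2.le h3 h5 (by norm_num)
      norm_num at *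
      linarith
    have h5 : (2.6651 : ℝ) ≤ 0.828 * Real.sqrt (6 * Real.pi) *
      (1 - (3 * 0.828 ^ 2 / 2) / 3 + (3 * 0.828 ^ 2 / 2) ^ 2 / 10 - (3 * 0.828 ^ 2 / 2) ^ 3 / 42 +
      (3 * 0.828 ^ 2 / 2) ^ 4 / 216 - (3 * 0.828 ^ 2 / 2) ^ 5 / 1320) := by
      have h6 : (0.74137 : ℝ) ≤ (1 - (3 * 0.828 ^ 2 / 2) / 3 + (3 * 0.828 ^ 2 / 2) ^ 2 / 10 -
        (3 * 0.828 ^ 2 / 2) ^ 3 / 42 +
        (3 * 0.828 ^ 2 / 2) ^ 4 / 216 - (3 * 0.828 ^ 2 / 2) ^ 5 / 1320) := by norm_num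
      have h7 : (0.828 * 4.3416 : ℝ) ≤ 0.828 * Real.sqrt (6 * Real.pi) := by linarith
      calc (2.6651 : ℝ) ≤ (0.828 * 4.3416) * 0.74137 := by norm_num
        _ ≤ _ := mul_le_mul h7 h6 (by norm_num) (by positivity)
    linarith

theorem small_b {n : ℕ} (a : Fin n → ℝ) (hsum : ∑ j, a j ^ 2 = 1) (ha : ∀ i, |a i| ≤ 1 / 2) :
    2 ^ n * (vv 0.85 + 0.002) ≤ FV a 0.85 0 := by
  have hpi1 := Real.pi_gt_d4
  have hpi2 := Real.pi_lt_d4
  apply FV_lower_small a hsum ha (t := 0.85) (X := 3.696) (by norm_num) (by norm_num)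
  · rw [div_le_iff₀ (by norm_num)]; norm_num at *; linarith
  · norm_num
  · have h1 := LL_b
    have h2 := sqrt_six_pi
    have h3 : vv 0.85 + 0.002 ≤ 0.84284 := by
      unfold vv
      have := sqrt2_ub
      norm_num at *
      linarith
    have h4 : Real.pi * (vv 0.85 + 0.002) ≤ 2.6479 := by
      have h5 : 0 ≤ vv 0.85 + 0.002 := by
        unfold vv
        have := sqrt2_lb
        norm_num at *
        linarith
      have : Real.pi * (vv 0.85 + 0.002) ≤ 3.1416 * 0.84284 :=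
        mul_le_mul hpi2.le h3 h5 (by norm_num)
      norm_num at *
      linarith
    have h5 : (2.6981 : ℝ) ≤ 0.85 * Real.sqrt (6 * Real.pi) *
      (1 - (3 * 0.85 ^ 2 / 2) / 3 + (3 * 0.85 ^ 2 / 2) ^ 2 / 10 - (3 * 0.85 ^ 2 / 2) ^ 3 / 42 +
      (3 * 0.85 ^ 2 / 2) ^ 4 / 216 - (3 * 0.85 ^ 2 / 2) ^ 5 / 1320) := by
      have h6 : (0.731145 : ℝ) ≤ (1 - (3 * 0.85 ^ 2 / 2) / 3 + (3 * 0.85 ^ 2 / 2) ^ 2 / 10 -
        (3 * 0.85 ^ 2 / 2) ^ 3 / 42 +
        (3 * 0.85 ^ 2 / 2) ^ 4 / 216 - (3 * 0.85 ^ 2 / 2) ^ 5 / 1320) := by norm_num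
      have h7 : (0.85 * 4.3416 : ℝ) ≤ 0.85 * Real.sqrt (6 * Real.pi) := by linarith
      calc (2.6981 : ℝ) ≤ (0.85 * 4.3416) * 0.731145 := by norm_num
        _ ≤ _ := mul_le_mul h7 h6 (by norm_num) (by positivity)
    linarith

theorem case_small {n : ℕ} (a : Fin n → ℝ) (hsum : ∑ j, a j ^ 2 = 1) (ha : ∀ i, |a i| ≤ 1 / 2)
    {t : ℝ} (ht1 : 2 * (Real.sqrt 2 - 1) ≤ t) (ht2 : t ≤ 0.85) : 2 ^ n * vv t ≤ FV a t 0 := by
  have h0 := t1_bounds ht1
  have h1 := small_a a hsum ha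
  have h2 := small_b a hsum ha
  have hs0 : 0 ≤ (t - 0.828) / 0.022 := by
    apply div_nonneg _ (by norm_num)
    linarith
  have hs1 : (t - 0.828) / 0.022 ≤ 1 := by
    rw [div_le_one (by norm_num)]
    norm_num at *
    linarith
  have h3 := concave_le a hsum (ta := 0.828) (tb := 0.85) (s := (t - 0.828) / 0.022)
    (by norm_num) (by norm_num) hs0 hs1
  have e : (1 - (t - 0.828) / 0.022) * 0.828 + (t - 0.828) / 0.022 * 0.85 = t := by
    ring
  rw [e] at h3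
  refine le_trans ?_ h3
  set s := (t - 0.828) / 0.022 with hs
  have hpow : (0 : ℝ) < 2 ^ n := by positivity
  have h4 : 2 ^ n * ((1 - s) * (vv 0.828 + 0.003) + s * (vv 0.85 + 0.002)) ≤
      (1 - s) * FV a 0.828 0 + s * FV a 0.85 0 := by
    have h5 := mul_le_mul_of_nonneg_left h1 (sub_nonneg.2 hs1)
    have h6 := mul_le_mul_of_nonneg_left h2 hs0
    linarith
  refine le_trans ?_ h4
  apply mul_le_mul_of_nonneg_left _ hpow.le
  have ht : t = 0.828 + 0.022 * s := by rw [hs]; field_simp; ring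
  have e2 : (1 - s) * (vv 0.828 + 0.003) + s * (vv 0.85 + 0.002) - vv t =
      0.003 * (1 - s) + 0.002 * s - 0.000242 * (s * (1 - s)) := by
    rw [ht]
    unfold vv
    ring
  nlinarith [mul_nonneg hs0 (sub_nonneg.2 hs1)]

/-- The second phase: lower bound for all unit vectors. -/
theorem phase_two {n : ℕ} (a : Fin n → ℝ) (hsum : ∑ j, a j ^ 2 = 1)
    {t : ℝ} (ht1 : 2 * (Real.sqrt 2 - 1) ≤ t) (ht2 : t ≤ 0.85) : 2 ^ n * vv t ≤ FV a t 0 := by
  by_cases h : ∀ i, |a i| ≤ 1 / 2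
  · exact case_small a hsum h ht1 ht2
  · push Not at h
    obtain ⟨i, hi⟩ := h
    cases n with
    | zero => exact i.elim0
    | succ n =>
      rcases abs_cases (a i) with ⟨h1, h2⟩ | ⟨h1, h2⟩
      · rw [h1] at hi
        exact case_large a hsum i hi.le ht1 ht2
      · rw [h1] at hi
        have := case_large (fun j => - a j) (by simpa using hsum) i hi.le ht1 ht2
        rwa [FV_neg] at this

/-- The first phase: lower bound for all unit vectors. -/
theorem phase_one {n : ℕ} (a : Fin n → ℝ) (hsum : ∑ j, a j ^ 2 = 1)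
    {t : ℝ} (ht0 : 0 ≤ t) (ht1 : t ≤ 2 * (Real.sqrt 2 - 1)) : 2 ^ n * t ≤ FV a t 0 := by
  have hs1 := sqrt2_lb
  have hs2 := sqrt2_ub
  have hss := sqrt2_sq
  have h1 := phase_two a hsum (t := 2 * (Real.sqrt 2 - 1)) le_rfl (by norm_num at *; linarith)
  have hv : vv (2 * (Real.sqrt 2 - 1)) = 2 * (Real.sqrt 2 - 1) := by
    unfold vv
    nlinarith
  rw [hv] at h1
  have hpos : 0 < 2 * (Real.sqrt 2 - 1) := by linarith
  have h2 := scale_le a hsum ht0 ht1 hpos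
  refine le_trans ?_ h2
  calc 2 ^ n * t = (t / (2 * (Real.sqrt 2 - 1))) * (2 ^ n * (2 * (Real.sqrt 2 - 1))) := by
        have hne : Real.sqrt 2 - 1 ≠ 0 := by intro h; linarith
        field_simp
    _ ≤ _ := mul_le_mul_of_nonneg_left h1 (by positivity)

end Pool.Agent.H60.Slab
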