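import Mathlib

set_option autoImplicit false

open Set

namespace Pool.Agent.H60.Slab

theorem mono_aux {F G f g : ℝ → ℝ} (hF : ∀ x, HasDerivAt F (f x) x)
    (hG : ∀ x, HasDerivAt G (g x) x) (h0 : F 0 ≤ G 0) (h : ∀ x, 0 ≤ x → f x ≤ g x) :
    ∀ x, 0 ≤ x → F x ≤ G x := by
  intro x hx
  have hd : ∀ x, HasDerivAt (fun y => G y - F y) (g x - f x) x := fun x => (hG x).sub (hF x)
  have hm : MonotoneOn (fun y => G y - F y) (Ici 0) := by
    apply monotoneOn_of_deriv_nonneg (convex_Ici 0)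
    · exact fun y _ => (hd y).continuousAt.continuousWithinAt
    · exact fun y _ => (hd y).differentiableAt.differentiableWithinAt
    · intro y hy
      rw [(hd y).deriv]
      rw [interior_Ici] at hy
      linarith [h y (le_of_lt hy)]
  have := hm (mem_Ici.2 le_rfl) (mem_Ici.2 hx) hx
  simp only at this
  linarith

theorem sin_lb3 : ∀ x : ℝ, 0 ≤ x → x - x ^ 3 / 6 ≤ Real.sin x := by
  apply mono_aux (f := fun x => 1 - x ^ 2 / 2) (g := Real.cos)
  · intro x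
    have h := (hasDerivAt_id x).sub ((hasDerivAt_pow 3 x).div_const 6)
    exact h.congr_deriv (by norm_num; try ring)
  · exact Real.hasDerivAt_sin
  · simp
  · intro x _; exact Real.one_sub_sq_div_two_le_cos

theorem cos_ub4 : ∀ x : ℝ, 0 ≤ x → Real.cos x ≤ 1 - x ^ 2 / 2 + x ^ 4 / 24 := by
  apply mono_aux (f := fun x => - Real.sin x) (g := fun x => -x + x ^ 3 / 6)
  · exact Real.hasDerivAt_cos
  · intro x
    have h := ((hasDerivAt_const x (1 : ℝ)).sub ((hasDerivAt_pow 2 x).div_const 2)).add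
      ((hasDerivAt_pow 4 x).div_const 24)
    exact h.congr_deriv (by norm_num; try ring)
  · simp
  · intro x hx; linarith [sin_lb3 x hx]

theorem sin_ub5 : ∀ x : ℝ, 0 ≤ x → Real.sin x ≤ x - x ^ 3 / 6 + x ^ 5 / 120 := by
  apply mono_aux (f := Real.cos) (g := fun x => 1 - x ^ 2 / 2 + x ^ 4 / 24)
  · exact Real.hasDerivAt_sin
  · intro x
    have h := ((hasDerivAt_id x).sub ((hasDerivAt_pow 3 x).div_const 6)).add
      ((hasDerivAt_pow 5 x).div_const 120)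
    exact h.congr_deriv (by norm_num; try ring)
  · simp
  · exact cos_ub4

theorem cos_lb6 : ∀ x : ℝ, 0 ≤ x → 1 - x ^ 2 / 2 + x ^ 4 / 24 - x ^ 6 / 720 ≤ Real.cos x := by
  apply mono_aux (f := fun x => -x + x ^ 3 / 6 - x ^ 5 / 120) (g := fun x => - Real.sin x)
  · intro x
    have h := (((hasDerivAt_const x (1 : ℝ)).sub ((hasDerivAt_pow 2 x).div_const 2)).add
      ((hasDerivAt_pow 4 x).div_const 24)).sub ((hasDerivAt_pow 6 x).div_const 720)
    exact h.congr_deriv (by norm_num; try ring)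
  · exact Real.hasDerivAt_cos
  · simp
  · intro x hx; linarith [sin_ub5 x hx]

theorem sin_lb7 : ∀ x : ℝ, 0 ≤ x → x - x ^ 3 / 6 + x ^ 5 / 120 - x ^ 7 / 5040 ≤ Real.sin x := by
  apply mono_aux (f := fun x => 1 - x ^ 2 / 2 + x ^ 4 / 24 - x ^ 6 / 720) (g := Real.cos)
  · intro x
    have h := (((hasDerivAt_id x).sub ((hasDerivAt_pow 3 x).div_const 6)).add
      ((hasDerivAt_pow 5 x).div_const 120)).sub ((hasDerivAt_pow 7 x).div_const 5040)
    exact h.congr_deriv (by norm_num; try ring)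
  · exact Real.hasDerivAt_sin
  · simp
  · exact cos_lb6

theorem hasDerivAt_exp_neg (x : ℝ) : HasDerivAt (fun y : ℝ => Real.exp (-y)) (-Real.exp (-x)) x := by
  have h := (hasDerivAt_neg x).exp
  simpa using h

theorem exp_lb1 : ∀ x : ℝ, 0 ≤ x → 1 - x ≤ Real.exp (-x) := by
  intro x _
  linarith [Real.add_one_le_exp (-x)]

theorem exp_ub2 : ∀ x : ℝ, 0 ≤ x → Real.exp (-x) ≤ 1 - x + x ^ 2 / 2 := by
  apply mono_aux (f := fun x => - Real.exp (-x)) (g := fun x => -1 + x)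
  · exact hasDerivAt_exp_neg
  · intro x
    have h := ((hasDerivAt_const x (1 : ℝ)).sub (hasDerivAt_id x)).add
      ((hasDerivAt_pow 2 x).div_const 2)
    exact h.congr_deriv (by norm_num)
  · simp
  · intro x hx; linarith [exp_lb1 x hx]

theorem exp_lb3 : ∀ x : ℝ, 0 ≤ x → 1 - x + x ^ 2 / 2 - x ^ 3 / 6 ≤ Real.exp (-x) := by
  apply mono_aux (f := fun x => -1 + x - x ^ 2 / 2) (g := fun x => - Real.exp (-x))
  · intro x
    have h := (((hasDerivAt_const x (1 : ℝ)).sub (hasDerivAt_id x)).add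
      ((hasDerivAt_pow 2 x).div_const 2)).sub ((hasDerivAt_pow 3 x).div_const 6)
    exact h.congr_deriv (by norm_num; try ring)
  · exact hasDerivAt_exp_neg
  · simp
  · intro x hx; linarith [exp_ub2 x hx]

theorem exp_ub4 : ∀ x : ℝ, 0 ≤ x →
    Real.exp (-x) ≤ 1 - x + x ^ 2 / 2 - x ^ 3 / 6 + x ^ 4 / 24 := by
  apply mono_aux (f := fun x => - Real.exp (-x)) (g := fun x => -1 + x - x ^ 2 / 2 + x ^ 3 / 6)
  · exact hasDerivAt_exp_neg
  · intro x
    have h := ((((hasDerivAt_const x (1 : ℝ)).sub (hasDerivAt_id x)).add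
      ((hasDerivAt_pow 2 x).div_const 2)).sub ((hasDerivAt_pow 3 x).div_const 6)).add
      ((hasDerivAt_pow 4 x).div_const 24)
    exact h.congr_deriv (by norm_num; try ring)
  · simp
  · intro x hx; linarith [exp_lb3 x hx]

theorem exp_lb5 : ∀ x : ℝ, 0 ≤ x →
    1 - x + x ^ 2 / 2 - x ^ 3 / 6 + x ^ 4 / 24 - x ^ 5 / 120 ≤ Real.exp (-x) := by
  apply mono_aux (f := fun x => -1 + x - x ^ 2 / 2 + x ^ 3 / 6 - x ^ 4 / 24)
    (g := fun x => - Real.exp (-x))
  · intro x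
    have h := (((((hasDerivAt_const x (1 : ℝ)).sub (hasDerivAt_id x)).add
      ((hasDerivAt_pow 2 x).div_const 2)).sub ((hasDerivAt_pow 3 x).div_const 6)).add
      ((hasDerivAt_pow 4 x).div_const 24)).sub ((hasDerivAt_pow 5 x).div_const 120)
    exact h.congr_deriv (by norm_num; try ring)
  · exact hasDerivAt_exp_neg
  · simp
  · intro x hx; linarith [exp_ub4 x hx]

theorem sinc_abs (z : ℝ) : Real.sinc z = Real.sinc |z| := by
  rcases abs_cases z with ⟨h, _⟩ | ⟨h, _⟩ <;> rw [h]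
  rw [Real.sinc_neg]

theorem sinc_ub (z : ℝ) : Real.sinc z ≤ 1 - z ^ 2 / 6 + z ^ 4 / 120 := by
  by_cases h : z = 0
  · subst h; simp
  · rw [sinc_abs, ← sq_abs z, show z ^ 4 = |z| ^ 4 by rw [pow_abs, abs_of_nonneg (by positivity)]]
    have hz : 0 < |z| := abs_pos.2 h
    rw [Real.sinc_of_ne_zero hz.ne', div_le_iff₀ hz]
    have := sin_ub5 |z| hz.le
    nlinarith

theorem sinc_lb (z : ℝ) : 1 - z ^ 2 / 6 + z ^ 4 / 120 - z ^ 6 / 5040 ≤ Real.sinc z := by
  by_cases h : z = 0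
  · subst h; simp
  · rw [sinc_abs, ← sq_abs z, show z ^ 4 = |z| ^ 4 by rw [pow_abs, abs_of_nonneg (by positivity)],
      show z ^ 6 = |z| ^ 6 by rw [pow_abs, abs_of_nonneg (by positivity)]]
    have hz : 0 < |z| := abs_pos.2 h
    rw [Real.sinc_of_ne_zero hz.ne', le_div_iff₀ hz]
    have := sin_lb7 |z| hz.le
    nlinarith

/-- the global bound. -/
theorem sinc_sq_le (z : ℝ) : Real.sinc z ^ 2 * (1 + z ^ 2 / 3) ≤ 1 := by
  rcases le_total (3 / 2) (z ^ 2) with h | h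
  · have hz : z ≠ 0 := by rintro rfl; norm_num at h
    rw [Real.sinc_of_ne_zero hz, div_pow]
    have h1 : Real.sin z ^ 2 ≤ 1 := Real.sin_sq_le_one z
    have h2 : 0 < z ^ 2 := by positivity
    rw [div_mul_eq_mul_div, div_le_one h2]
    nlinarith
  · have h1 := sinc_ub z
    have h2 := sinc_lb z
    set x := z ^ 2 with hx
    have e4 : z ^ 4 = x ^ 2 := by rw [hx]; ring
    have e6 : z ^ 6 = x ^ 3 := by rw [hx]; ring
    rw [e4] at h1 h2
    rw [e6] at h2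
    have hx0 : 0 ≤ x := by positivity
    have h3 : 0 ≤ Real.sinc z := by nlinarith [pow_nonneg hx0 2, pow_nonneg hx0 3]
    have h4 : Real.sinc z ^ 2 ≤ (1 - x / 6 + x ^ 2 / 120) ^ 2 := pow_le_pow_left₀ h3 h1 2
    have h5 : (1 - x / 6 + x ^ 2 / 120) ^ 2 * (1 + x / 3) ≤ 1 := by
      have e : 1 - (1 - x / 6 + x ^ 2 / 120) ^ 2 * (1 + x / 3) =
        x ^ 2 * (1 / 15 - 13 * x / 1080 + 37 * x ^ 2 / 43200 - x ^ 3 / 43200) := by ring
      have : 0 ≤ 1 / 15 - 13 * x / 1080 + 37 * x ^ 2 / 43200 - x ^ 3 / 43200 := by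
        nlinarith [pow_nonneg hx0 2]
      have := mul_nonneg (sq_nonneg x) this
      linarith
    calc Real.sinc z ^ 2 * (1 + x / 3) ≤ (1 - x / 6 + x ^ 2 / 120) ^ 2 * (1 + x / 3) :=
          mul_le_mul_of_nonneg_right h4 (by positivity)
      _ ≤ 1 := h5

theorem sinc_nonneg {z : ℝ} (h : |z| ≤ Real.pi) : 0 ≤ Real.sinc z := by
  by_cases hz : z = 0
  · subst hz; simp
  · rw [sinc_abs, Real.sinc_of_ne_zero (abs_pos.2 hz).ne']
    exact div_nonneg (Real.sin_nonneg_of_nonneg_of_le_pi (abs_nonneg _) h) (abs_nonneg _)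

theorem exp_lb_pi : (0.19 : ℝ) ≤ Real.exp (-1.645) := by
  have h1 := exp_lb5 (1.645 / 2) (by norm_num)
  have h2 : Real.exp (-1.645) = Real.exp (-(1.645 / 2)) ^ 2 := by
    rw [← Real.exp_nat_mul]; norm_num
  rw [h2]
  have h3 : (0.4389 : ℝ) ≤ Real.exp (-(1.645 / 2)) := by
    refine le_trans ?_ h1; norm_num
  nlinarith

theorem sinc_le_exp {z : ℝ} (h : |z| ≤ Real.pi) : Real.sinc z ≤ Real.exp (-(z ^ 2 / 6)) := by
  rcases le_total (z ^ 2) 7.2 with h1 | h1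
  · have h2 := sinc_ub z
    have h3 := exp_lb3 (z ^ 2 / 6) (by positivity)
    refine le_trans h2 (le_trans ?_ h3)
    have hx0 : 0 ≤ z ^ 2 := by positivity
    have e4 : z ^ 4 = (z ^ 2) ^ 2 := by ring
    rw [e4]
    nlinarith [mul_nonneg (mul_nonneg hx0 hx0) (sub_nonneg.2 h1)]
  · have hpi := Real.pi_lt_d4
    rw [sinc_abs, ← sq_abs z]
    set y := |z| with hy
    have hy0 : 0 ≤ y := abs_nonneg z
    rw [← sq_abs z, ← hy] at h1
    have hy1 : 2.683 ≤ y := by nlinarith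
    rw [Real.sinc_of_ne_zero (by linarith), div_le_iff₀ (by linarith)]
    have h2 : Real.sin y ≤ 0.4586 := by
      rw [← Real.sin_pi_sub]
      have := Real.sin_le (sub_nonneg.2 h)
      linarith
    have h3 : Real.exp (-1.645) ≤ Real.exp (-(y ^ 2 / 6)) := by
      apply Real.exp_le_exp.2
      nlinarith
    have h4 := exp_lb_pi
    nlinarith

theorem sinc_ge_exp {z : ℝ} (h : z ^ 2 ≤ 3.6) :
    Real.exp (-(z ^ 2 / 6)) * (1 - z ^ 4 / 136) ≤ Real.sinc z := by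
  have h2 := sinc_lb z
  have h3 := exp_ub4 (z ^ 2 / 6) (by positivity)
  have e4 : z ^ 4 = (z ^ 2) ^ 2 := by ring
  have e6 : z ^ 6 = (z ^ 2) ^ 3 := by ring
  rw [e4] at h2 ⊢
  rw [e6] at h2
  set x := z ^ 2 with hx
  have hx0 : 0 ≤ x := by positivity
  have h4 : 0 ≤ 1 - x ^ 2 / 136 := by nlinarith
  refine le_trans (mul_le_mul_of_nonneg_right h3 h4) (le_trans ?_ h2)
  have e : (1 - x / 6 + x ^ 2 / 120 - x ^ 3 / 5040) -
      (1 - x / 6 + (x / 6) ^ 2 / 2 - (x / 6) ^ 3 / 6 + (x / 6) ^ 4 / 24) * (1 - x ^ 2 / 136) =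
      x ^ 2 * ((1 / 120 - 1 / 72 + 1 / 136) + (-1 / 5040 + 1 / 1296 - 1 / 816) * x +
        (-1 / 31104 + 1 / 9792) * x ^ 2 - x ^ 3 / 176256 + x ^ 4 / 4230144) := by ring
  have h5 : 0 ≤ (1 / 120 - 1 / 72 + 1 / 136) + (-1 / 5040 + 1 / 1296 - 1 / 816) * x +
        (-1 / 31104 + 1 / 9792) * x ^ 2 - x ^ 3 / 176256 + x ^ 4 / 4230144 := by
    nlinarith [mul_nonneg hx0 (sub_nonneg.2 h), mul_nonneg (mul_nonneg hx0 hx0) (sub_nonneg.2 h),
      pow_nonneg hx0 4, sq_nonneg (x - 3.6)]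
  have := mul_nonneg (sq_nonneg x) h5
  linarith

theorem abs_sinc_le_inv {z : ℝ} (h : z ≠ 0) : |Real.sinc z| ≤ |z|⁻¹ := by
  rw [Real.sinc_of_ne_zero h, abs_div, div_eq_mul_inv]
  have := Real.abs_sin_le_one z
  have h2 : 0 ≤ |z|⁻¹ := by positivity
  nlinarith

end Pool.Agent.H60.Slab
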