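import Pool.Agent.H60.Slab.Inv
import Pool.Agent.H60.Slab.Gauss

set_option autoImplicit false

open MeasureTheory Set

namespace Pool.Agent.H60.Slab

theorem sinc_le_one_div {z : ℝ} (h : 0 < z) : Real.sinc z ≤ 1 / z := by
  rw [Real.sinc_of_ne_zero h.ne']
  exact div_le_div_of_nonneg_right (Real.sin_le_one z) h.le

theorem sinc_nonpos {z : ℝ} (h1 : Real.pi ≤ z) (h2 : z ≤ 2 * Real.pi) : Real.sinc z ≤ 0 := by
  have hpi := Real.pi_pos
  rw [Real.sinc_of_ne_zero (by linarith)]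
  apply div_nonpos_of_nonpos_of_nonneg _ (by linarith)
  have h3 : 0 ≤ Real.sin (z - Real.pi) :=
    Real.sin_nonneg_of_nonneg_of_le_pi (by linarith) (by linarith)
  rw [Real.sin_sub_pi] at h3
  linarith

/-- the loss function. -/
noncomputable def mm (t X ξ : ℝ) : ℝ :=
  (Ioc 0 X).indicator (fun ξ => (1 / (544 * t)) * (ξ ^ 3 * qq ξ)) ξ +
  (Ioi (2 * Real.pi)).indicator (fun ξ => (1 / t) * (16 * (ξ ^ 5)⁻¹ + ξ * qq ξ / 36)) ξ

theorem pointwise {n : ℕ} (a : Fin n → ℝ) (hsum : ∑ j, a j ^ 2 = 1) (ha : ∀ i, |a i| ≤ 1 / 2)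
    {t X : ℝ} (ht : 0 < t) (ht1 : t ≤ 1) (hX : Real.pi / t ≤ X) (hX2 : X ^ 2 ≤ 14.4)
    {ξ : ℝ} (hξ : 0 < ξ) :
    qq ξ * Real.sinc (t * ξ) - mm t X ξ ≤ phi a ξ * Real.sinc (t * ξ) := by
  have hpi := Real.pi_pos
  have hpi3 := Real.pi_gt_three
  have hX0 : 0 < X := lt_of_lt_of_le (by positivity) hX
  have hX6 : X ≤ 2 * Real.pi := by nlinarith
  have hq := qq_pos ξ
  have hm0 : 0 ≤ (Ioc 0 X).indicator (fun ξ => (1 / (544 * t)) * (ξ ^ 3 * qq ξ)) ξ := by
    apply indicator_nonneg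
    intro x hx
    have := qq_pos x
    have := hx.1
    positivity
  have hm1 : 0 ≤ (Ioi (2 * Real.pi)).indicator
      (fun ξ => (1 / t) * (16 * (ξ ^ 5)⁻¹ + ξ * qq ξ / 36)) ξ := by
    apply indicator_nonneg
    intro x hx
    have := qq_pos x
    have : 0 < x := lt_trans (by positivity) (mem_Ioi.1 hx)
    positivity
  rcases le_total ξ (Real.pi / t) with h | h
  · -- case A
    have hmem : ξ ∈ Ioc 0 X := ⟨hξ, le_trans h hX⟩
    have htξ : t * ξ ≤ Real.pi := by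
      rw [le_div_iff₀ ht] at h; linarith
    have hs0 : 0 ≤ Real.sinc (t * ξ) := sinc_nonneg (by rwa [abs_of_pos (by positivity)])
    have hs1 : Real.sinc (t * ξ) ≤ 1 / (t * ξ) := sinc_le_one_div (by positivity)
    have hge := phi_ge_exp a hsum ha (ξ := ξ) (by nlinarith [hmem.2])
    have h1 : qq ξ * (1 - ξ ^ 4 / 544) * Real.sinc (t * ξ) ≤ phi a ξ * Real.sinc (t * ξ) :=
      mul_le_mul_of_nonneg_right hge hs0
    have h2 : qq ξ * (ξ ^ 4 / 544) * Real.sinc (t * ξ) ≤ (1 / (544 * t)) * (ξ ^ 3 * qq ξ) := by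
      calc qq ξ * (ξ ^ 4 / 544) * Real.sinc (t * ξ)
          ≤ qq ξ * (ξ ^ 4 / 544) * (1 / (t * ξ)) :=
            mul_le_mul_of_nonneg_left hs1 (by positivity)
        _ = (1 / (544 * t)) * (ξ ^ 3 * qq ξ) := by
            field_simp
    unfold mm
    rw [indicator_of_mem hmem]
    nlinarith
  · rcases le_total ξ (2 * Real.pi) with h' | h'
    · -- case B
      have htξ : Real.pi ≤ t * ξ := by
        rw [div_le_iff₀ ht] at h; linarith
      have hs0 : Real.sinc (t * ξ) ≤ 0 := sinc_nonpos htξ (by nlinarith)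
      have hle := phi_le_exp a hsum ha hξ.le h'
      have h1 : qq ξ * Real.sinc (t * ξ) ≤ phi a ξ * Real.sinc (t * ξ) :=
        mul_le_mul_of_nonpos_right hle hs0
      unfold mm
      linarith
    · -- case C
      rcases eq_or_lt_of_le h' with h'' | h''
      · have htξ : Real.pi ≤ t * ξ := by
          rw [div_le_iff₀ ht] at h; linarith
        have hs0 : Real.sinc (t * ξ) ≤ 0 := sinc_nonpos htξ (by nlinarith)
        have hle := phi_le_exp a hsum ha hξ.le h''.symm.le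
        have h1 : qq ξ * Real.sinc (t * ξ) ≤ phi a ξ * Real.sinc (t * ξ) :=
          mul_le_mul_of_nonpos_right hle hs0
        unfold mm
        linarith
      · have htail := phi_tail a hsum ha h'
        have hs : |Real.sinc (t * ξ)| ≤ (t * ξ)⁻¹ := by
          have := abs_sinc_le_inv (z := t * ξ) (by positivity)
          rwa [abs_of_pos (show 0 < t * ξ by positivity)] at this
        have h1 : |phi a ξ * Real.sinc (t * ξ)| ≤ (1 / t) * (16 * (ξ ^ 5)⁻¹) := by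
          rw [abs_mul]
          calc |phi a ξ| * |Real.sinc (t * ξ)| ≤ (16 / ξ ^ 4) * (t * ξ)⁻¹ :=
                mul_le_mul htail hs (abs_nonneg _) (by positivity)
            _ = (1 / t) * (16 * (ξ ^ 5)⁻¹) := by field_simp
        have h2 : qq ξ * Real.sinc (t * ξ) ≤ (1 / t) * (ξ * qq ξ / 36) := by
          calc qq ξ * Real.sinc (t * ξ) ≤ qq ξ * (1 / (t * ξ)) :=
                mul_le_mul_of_nonneg_left (sinc_le_one_div (by positivity)) hq.le
            _ ≤ (1 / t) * (ξ * qq ξ / 36) := by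
                have h3 : 1 / (t * ξ) ≤ (1 / t) * (ξ / 36) := by
                  rw [div_le_iff₀ (by positivity)]
                  have : 1 / t * (ξ / 36) * (t * ξ) = ξ ^ 2 / 36 := by field_simp
                  rw [this]
                  nlinarith
                have := mul_le_mul_of_nonneg_left h3 hq.le
                calc qq ξ * (1 / (t * ξ)) ≤ qq ξ * (1 / t * (ξ / 36)) := this
                  _ = (1 / t) * (ξ * qq ξ / 36) := by ring
        have h3 := neg_abs_le (phi a ξ * Real.sinc (t * ξ))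
        unfold mm
        rw [indicator_of_mem (show ξ ∈ Ioi (2 * Real.pi) from h'')]
        have h4 : (1 / t) * (16 * (ξ ^ 5)⁻¹ + ξ * qq ξ / 36) =
          (1 / t) * (16 * (ξ ^ 5)⁻¹) + (1 / t) * (ξ * qq ξ / 36) := by ring
        rw [h4]
        linarith

/-- total loss. -/
noncomputable def LL (X : ℝ) : ℝ :=
  (18 - 3 * (X ^ 2 + 6) * qq X) / 544 + (4 * ((2 * Real.pi) ^ 4)⁻¹ + qq (2 * Real.pi) / 12)

theorem mm_integral {t X : ℝ} (ht : 0 < t) (hX : 0 ≤ X) :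
    IntegrableOn (mm t X) (Ioi 0) ∧ ∫ ξ in Ioi (0 : ℝ), mm t X ξ = (1 / t) * LL X := by
  have hpi := Real.pi_pos
  have h2pi : 0 < 2 * Real.pi := by positivity
  obtain ⟨ht1, ht2⟩ := tail_int h2pi
  have i1 : IntegrableOn (fun ξ => (1 / (544 * t)) * (ξ ^ 3 * qq ξ)) (Ioc 0 X) := by
    apply (Continuous.integrableOn_Icc (a := 0) (b := X) _).mono_set Ioc_subset_Icc_self
    have := qq_continuous
    fun_prop
  have i2 : IntegrableOn (fun ξ => (1 / t) * (16 * (ξ ^ 5)⁻¹ + ξ * qq ξ / 36))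
      (Ioi (2 * Real.pi)) := ht1.const_mul _
  have j1 : IntegrableOn ((Ioc 0 X).indicator (fun ξ => (1 / (544 * t)) * (ξ ^ 3 * qq ξ)))
      (Ioi 0) := ((integrable_indicator_iff measurableSet_Ioc).2 i1).integrableOn
  have j2 : IntegrableOn ((Ioi (2 * Real.pi)).indicator
      (fun ξ => (1 / t) * (16 * (ξ ^ 5)⁻¹ + ξ * qq ξ / 36))) (Ioi 0) :=
    ((integrable_indicator_iff measurableSet_Ioi).2 i2).integrableOn
  constructor
  · exact j1.add j2
  · unfold mm
    rw [integral_add j1 j2, setIntegral_indicator measurableSet_Ioc,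
      setIntegral_indicator measurableSet_Ioi]
    have s1 : Ioi (0 : ℝ) ∩ Ioc 0 X = Ioc 0 X := inter_eq_right.2 Ioc_subset_Ioi_self
    have s2 : Ioi (0 : ℝ) ∩ Ioi (2 * Real.pi) = Ioi (2 * Real.pi) :=
      inter_eq_right.2 (Ioi_subset_Ioi h2pi.le)
    rw [s1, s2, integral_const_mul, integral_const_mul, ht2,
      ← intervalIntegral.integral_of_le hX, int_cubic_gauss]
    unfold LL
    field_simp

theorem J_lower {n : ℕ} (a : Fin n → ℝ) (hsum : ∑ j, a j ^ 2 = 1) (ha : ∀ i, |a i| ≤ 1 / 2)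
    {t X : ℝ} (ht : 0 < t) (ht1 : t ≤ 1) (hX : Real.pi / t ≤ X) (hX2 : X ^ 2 ≤ 14.4) :
    Real.sqrt (6 * Real.pi) / 2 * (∫ u in (0 : ℝ)..1, Real.exp (-(3 * (t * u) ^ 2 / 2))) -
      (1 / t) * LL X ≤ ∫ ξ in Ioi (0 : ℝ), phi a ξ * Real.sinc (t * ξ) := by
  have hpi := Real.pi_pos
  have hX0 : 0 ≤ X := le_trans (by positivity) hX
  obtain ⟨h1, h2⟩ := mm_integral ht hX0
  rw [← gauss_sinc, ← h2, ← integral_sub (qq_sinc_integrable t).integrableOn h1]
  apply setIntegral_mono_on ((qq_sinc_integrable t).integrableOn.sub h1)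
    (phi_sinc_integrable a hsum ht ht1).integrableOn measurableSet_Ioi
  intro ξ hξ
  exact pointwise a hsum ha ht ht1 hX hX2 hξ

theorem FV_lower_small {n : ℕ} (a : Fin n → ℝ) (hsum : ∑ j, a j ^ 2 = 1)
    (ha : ∀ i, |a i| ≤ 1 / 2)
    {t X v : ℝ} (ht : 0 < t) (ht1 : t ≤ 1) (hX : Real.pi / t ≤ X) (hX2 : X ^ 2 ≤ 14.4)
    (hnum : Real.pi * v ≤ t * Real.sqrt (6 * Real.pi) *
      (1 - (3 * t ^ 2 / 2) / 3 + (3 * t ^ 2 / 2) ^ 2 / 10 - (3 * t ^ 2 / 2) ^ 3 / 42 +
      (3 * t ^ 2 / 2) ^ 4 / 216 - (3 * t ^ 2 / 2) ^ 5 / 1320) - 2 * LL X) :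
    2 ^ n * v ≤ FV a t 0 := by
  have hpi := Real.pi_pos
  rw [FV_inv a hsum ht ht1, mul_assoc]
  apply mul_le_mul_of_nonneg_left _ (by positivity)
  have h1 := J_lower a hsum ha ht ht1 hX hX2
  have h2 := gauss_lower (t := t)
  have h3 : 0 ≤ Real.sqrt (6 * Real.pi) / 2 := by positivity
  have h4 := mul_le_mul_of_nonneg_left h2 h3
  have h5 : 0 ≤ 2 * t / Real.pi := by positivity
  refine le_trans ?_ (mul_le_mul_of_nonneg_left (le_trans (sub_le_sub_right h4 _) h1) h5)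
  have h6 : v ≤ (t * Real.sqrt (6 * Real.pi) *
      (1 - (3 * t ^ 2 / 2) / 3 + (3 * t ^ 2 / 2) ^ 2 / 10 - (3 * t ^ 2 / 2) ^ 3 / 42 +
      (3 * t ^ 2 / 2) ^ 4 / 216 - (3 * t ^ 2 / 2) ^ 5 / 1320) - 2 * LL X) / Real.pi := by
    rw [le_div_iff₀ hpi]; linarith
  refine le_trans h6 (le_of_eq ?_)
  field_simp

end Pool.Agent.H60.Slab
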