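import Pool.Agent.H60.Slab.Basic

set_option autoImplicit false

open MeasureTheory Set

namespace Pool.Agent.H60.Slab

theorem clamp_continuous (t : ℝ) : Continuous (clamp t) := by
  unfold clamp; fun_prop

theorem clamp_neg {t : ℝ} (ht : 0 ≤ t) (x : ℝ) : clamp t (-x) = - clamp t x := by
  unfold clamp
  rcases le_total x t with h1 | h1 <;> rcases le_total (-x) t with h2 | h2
  · rw [min_eq_left h1, min_eq_left h2, max_eq_right (by linarith), max_eq_right (by linarith)]
  · rw [min_eq_left h1, min_eq_right h2, max_eq_right (by linarith), max_eq_left (by linarith)]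
    ring
  · rw [min_eq_right h1, min_eq_left h2, max_eq_left (by linarith), max_eq_right (by linarith)]
  · rw [min_eq_right h1, min_eq_right h2, max_eq_right (by linarith)]
    linarith

theorem clamp_of_nonneg {t x : ℝ} (ht : 0 ≤ t) (hx : 0 ≤ x) : clamp t x = min x t := by
  unfold clamp
  exact max_eq_right (le_trans (by linarith) (le_min hx ht))

theorem indicator_interval {t b : ℝ} (ht : 0 ≤ t) (hb : 0 < b) (z : ℝ) :
    ∫ s in (z - b)..(z + b), (Icc (-t) t).indicator (fun _ => (1 : ℝ)) s =
      clamp t (z + b) - clamp t (z - b) := by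
  rw [intervalIntegral.integral_of_le (by linarith), ← integral_Icc_eq_integral_Ioc,
    setIntegral_indicator measurableSet_Icc, Icc_inter_Icc]
  simp only [integral_const, smul_eq_mul, mul_one, MeasurableSet.univ, measureReal_restrict_apply,
    univ_inter, Real.volume_real_Icc]
  unfold clamp
  rcases le_total (z + b) t with h1 | h1 <;> rcases le_total (z - b) t with h2 | h2 <;>
  rcases le_total (z - b) (-t) with h3 | h3 <;> rcases le_total (z + b) (-t) with h4 | h4 <;>
  simp only [h1, h2, h3, h4, min_eq_left, min_eq_right, max_eq_left, max_eq_right] <;>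
  (try rw [max_eq_left (by linarith)]) <;>
  (try rw [max_eq_right (by linarith)]) <;>
  (try rw [max_eq_left (by linarith)]) <;>
  linarith

theorem mem_Icc_abs (t s : ℝ) : s ∈ Icc (-t) t ↔ |s| ≤ t := by
  rw [mem_Icc, abs_le]

/-- real-valued measure of a shifted slab of the cube. -/
noncomputable def FV {n : ℕ} (a : Fin n → ℝ) (t y : ℝ) : ℝ :=
  (cubeM n).real {x | |y + dot x a| ≤ t}

theorem measurableSet_slab {n : ℕ} (a : Fin n → ℝ) (t y : ℝ) :
    MeasurableSet {x : Fin n → ℝ | |y + dot x a| ≤ t} := by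
  have hc : Continuous (fun x : Fin n → ℝ => |y + dot x a|) :=
    (continuous_const.add (continuous_dot a)).abs
  exact measurableSet_le hc.measurable measurable_const

theorem FV_eq_integral {n : ℕ} (a : Fin n → ℝ) (t y : ℝ) :
    FV a t y = ∫ x, (Icc (-t) t).indicator (fun _ => (1 : ℝ)) (y + dot x a) ∂(cubeM n) := by
  have h := integral_indicator_const (μ := cubeM n) (1 : ℝ) (measurableSet_slab a t y)
  rw [smul_eq_mul, mul_one] at h
  rw [FV, ← h]
  congr 1
  ext x
  simp only [indicator, mem_Icc_abs, mem_setOf_eq]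

theorem integrable_ind {n : ℕ} (a : Fin n → ℝ) (t y : ℝ) :
    Integrable (fun x => (Icc (-t) t).indicator (fun _ => (1 : ℝ)) (y + dot x a)) (cubeM n) := by
  have h : Integrable ({x : Fin n → ℝ | |y + dot x a| ≤ t}.indicator (fun _ => (1 : ℝ)))
      (cubeM n) := (integrable_const (1 : ℝ)).indicator (measurableSet_slab a t y)
  refine h.congr (Filter.Eventually.of_forall fun x => ?_)
  simp only [indicator, mem_Icc_abs, mem_setOf_eq]

theorem FV_split {n : ℕ} (a : Fin (n + 1) → ℝ) (i : Fin (n + 1)) (hb : 0 < a i) {t : ℝ}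
    (ht : 0 ≤ t) (y : ℝ) :
    FV a t y = (a i)⁻¹ * ∫ x', (clamp t (y + dot x' (fun j => a (i.succAbove j)) + a i) -
      clamp t (y + dot x' (fun j => a (i.succAbove j)) - a i)) ∂(cubeM n) := by
  rw [FV_eq_integral, integral_split i _ (integrable_ind a t y), ← integral_const_mul]
  congr 1
  ext x'
  rw [← indicator_interval ht hb, ← avg_eq_interval _ hb.ne']
  congr 1
  ext u
  rw [dot_insertNth]
  congr 1
  ring

theorem FV_zero_eq {n : ℕ} (a : Fin (n + 1) → ℝ) (i : Fin (n + 1)) (hb : 0 < a i) {t : ℝ}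
    (ht : 0 ≤ t) :
    FV a t 0 = 2 * (a i)⁻¹ * ∫ x', clamp t (a i + dot x' (fun j => a (i.succAbove j)))
      ∂(cubeM n) := by
  rw [FV_split a i hb ht 0]
  have h1 : Integrable (fun x' : Fin n → ℝ => clamp t (0 + dot x' (fun j => a (i.succAbove j)) + a i))
      (cubeM n) := integrable_cube_of_continuous
        ((clamp_continuous t).comp ((continuous_const.add (continuous_dot _)).add continuous_const))
  have h2 : Integrable (fun x' : Fin n → ℝ => clamp t (0 + dot x' (fun j => a (i.succAbove j)) - a i))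
      (cubeM n) := integrable_cube_of_continuous
        ((clamp_continuous t).comp ((continuous_const.add (continuous_dot _)).sub continuous_const))
  rw [integral_sub h1 h2]
  have e1 : (fun x' : Fin n → ℝ => clamp t (0 + dot x' (fun j => a (i.succAbove j)) + a i)) =
      fun x' => clamp t (a i + dot x' (fun j => a (i.succAbove j))) := by
    ext x'; congr 1; ring
  have e2 : (fun x' : Fin n → ℝ => clamp t (0 + dot x' (fun j => a (i.succAbove j)) - a i)) =
      fun x' => clamp t (-(a i) + dot x' (fun j => a (i.succAbove j))) := by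
    ext x'; congr 1; ring
  rw [e1, e2, odd_cube n _ (clamp t) (clamp_continuous t) (clamp_neg ht)]
  ring

theorem FV_neg {n : ℕ} (a : Fin n → ℝ) (t : ℝ) : FV (fun i => - a i) t 0 = FV a t 0 := by
  unfold FV
  congr 1
  ext x
  have : dot x (fun i => - a i) = - dot x a := by
    simp [dot, Finset.sum_neg_distrib]
  rw [mem_setOf_eq, mem_setOf_eq, this, zero_add, zero_add, abs_neg]

/-- The slab in the form of the problem. -/
theorem volume_slab {n : ℕ} (a : Fin n → ℝ) (t : ℝ) :
    volume {x : Fin n → ℝ | (∀ i, |x i| ≤ 1) ∧ |∑ i, x i * a i| ≤ t} =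
      ENNReal.ofReal (FV a t 0) := by
  unfold FV
  rw [ofReal_measureReal, cubeM_eq, Measure.restrict_apply (measurableSet_slab a t 0)]
  congr 1
  ext x
  simp only [mem_setOf_eq, mem_inter_iff, zero_add, dot, mem_Icc, Pi.le_def, abs_le]
  constructor
  · rintro ⟨h1, h2⟩
    exact ⟨h2, fun i => (h1 i).1, fun i => (h1 i).2⟩
  · rintro ⟨h1, h2, h3⟩
    exact ⟨fun i => ⟨h2 i, h3 i⟩, h1⟩

theorem FV_nonneg {n : ℕ} (a : Fin n → ℝ) (t y : ℝ) : 0 ≤ FV a t y := measureReal_nonneg

theorem volume_slab_le_iff {n : ℕ} (a b : Fin n → ℝ) (t : ℝ) :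
    volume {x : Fin n → ℝ | (∀ i, |x i| ≤ 1) ∧ |∑ i, x i * a i| ≤ t} ≤
      volume {x : Fin n → ℝ | (∀ i, |x i| ≤ 1) ∧ |∑ i, x i * b i| ≤ t} ↔
    FV a t 0 ≤ FV b t 0 := by
  rw [volume_slab, volume_slab, ENNReal.ofReal_le_ofReal_iff (FV_nonneg _ _ _)]

end Pool.Agent.H60.Slab
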